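import Pool.Agent.T2h48.LZ.Stm1

set_option autoImplicit false
set_option linter.all false
set_option maxHeartbeats 4000000

open NumberField

namespace Pool.Agent.T2h48.LZ

open Pool.Agent.R410.LW

/-- from an embedding `𝓞 L → M` to homomorphisms `𝓞 L → k` -/
theorem exists_hom {A M : Type} [CommRing A] [IsDomain A] [Field M] [Algebra A M] [IsFractionRing A M]
    [Algebra.FiniteType ℤ A] {L : Type} [Field L] [NumberField L] (j : 𝓞 L →+* M) :
    ∃ a : A, a ≠ 0 ∧ ∀ (k : Type) [Field k] [Finite k] (ψ : A →+* k), ψ a ≠ 0 →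
      Nonempty (𝓞 L →+* k) := by
  classical
  let fA : A →ₐ[ℤ] M := (algebraMap A M).toIntAlgHom
  let fB : 𝓞 L →ₐ[ℤ] M := j.toIntAlgHom
  let C : Subalgebra ℤ M := fA.range ⊔ fB.range
  have hAfg : fA.range.FG := by
    rw [← Algebra.map_top]
    exact ((Algebra.FiniteType.out : (⊤ : Subalgebra ℤ A).FG)).map fA
  have hO : Algebra.FiniteType ℤ (𝓞 L) := inferInstance
  have hBfg : fB.range.FG := by
    rw [← Algebra.map_top]
    exact ((Algebra.FiniteType.out : (⊤ : Subalgebra ℤ (𝓞 L)).FG)).map fB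
  have hCfg : C.FG := hAfg.sup hBfg
  have hCft : Algebra.FiniteType ℤ C := C.fg_iff_finiteType.1 hCfg
  let _ : Algebra A C := ((algebraMap A M).codRestrict C.toSubring fun x =>
    (le_sup_left : fA.range ≤ C) ⟨x, rfl⟩).toAlgebra
  have hAC : ∀ x : A, ((algebraMap A C x : C) : M) = algebraMap A M x := fun x => rfl
  have iA : Function.Injective (algebraMap A C) := by
    intro x y h
    apply IsFractionRing.injective A M
    rw [← hAC, ← hAC, h]
  have : Algebra.FiniteType A C := Algebra.FiniteType.of_restrictScalars_finiteType ℤ A C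
  obtain ⟨a, ha0, ha⟩ := pow_den (A := A) (B := C) fun c => by
    obtain ⟨x, y, hy, hxy⟩ := IsFractionRing.div_surjective (A := A) (c : M)
    have hy0 : y ≠ 0 := nonZeroDivisors.ne_zero hy
    refine ⟨y, hy0, x, ?_⟩
    apply Subtype.ext
    show ((algebraMap A C y : C) : M) * (c : M) = _
    rw [hAC, hAC, ← hxy, mul_div_cancel₀]
    exact (map_ne_zero_iff _ (IsFractionRing.injective A M)).2 hy0
  refine ⟨a, ha0, ?_⟩
  intro k _ _ ψ hψ
  have h1 := bir_card iA ha0 ha (dvd_refl a) k
  have hfin : Finite (A →+* k) := (Algebra.FiniteType.out : (⊤ : Subalgebra ℤ A).FG) |>.elim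
    fun S hS => by
      refine Finite.of_injective (fun (φ : A →+* k) (x : S) => φ x) ?_
      intro φ φ' h
      have h2 : φ.toIntAlgHom = φ'.toIntAlgHom := by
        refine AlgHom.ext_of_adjoin_eq_top hS fun x hx => ?_
        exact congrFun h ⟨x, hx⟩
      refine RingHom.ext fun x => ?_
      exact DFunLike.congr_fun h2 x
  have h2 : 0 < Nat.card {ψ : A →+* k // ψ a ≠ 0} := by
    have : Nonempty {ψ : A →+* k // ψ a ≠ 0} := ⟨⟨ψ, hψ⟩⟩
    exact Nat.card_pos
  rw [← h1] at h2
  obtain ⟨⟨φ, -⟩⟩ := (Nat.card_pos_iff.1 h2).1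
  exact ⟨φ.comp ((j).codRestrict C.toSubring fun x =>
    (le_sup_right : fB.range ≤ C) ⟨x, rfl⟩)⟩

/-- the points of the closed subscheme of an ideal, where `t ≠ 0` -/
noncomputable def nu (A : Type) [CommRing A] (I : Ideal A) (t : A) :
    (k : Type) → [Field k] → [Finite k] → ℕ :=
  fun k _ _ => Nat.card {φ : A →+* k // (∀ a ∈ I, φ a = 0) ∧ φ t ≠ 0}

theorem hom_finite (A k : Type) [CommRing A] [Algebra.FiniteType ℤ A] [Field k] [Finite k] :
    Finite (A →+* k) := by
  obtain ⟨S, hS⟩ := (inferInstance : Algebra.FiniteType ℤ A).out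
  refine Finite.of_injective (fun (φ : A →+* k) (x : S) => φ x) ?_
  intro φ φ' h
  have h2 : φ.toIntAlgHom = φ'.toIntAlgHom := by
    refine AlgHom.ext_of_adjoin_eq_top hS fun x hx => ?_
    exact congrFun h ⟨x, hx⟩
  refine RingHom.ext fun x => ?_
  exact DFunLike.congr_fun h2 x

theorem asy_zero (ν : (k : Type) → [Field k] → [Finite k] → ℕ) (N : ℕ) (hN : N ≠ 0)
    (h : ∀ (k : Type) [Field k] [Finite k], ((N : ℕ) : k) ≠ 0 → ν k = 0) : Asy ν := by
  refine ⟨0, N, hN, fun k _ _ hk => ⟨0, 0, le_refl _, le_refl _, fun _ => h k hk, ?_⟩⟩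
  rw [h k hk]
  simp

theorem asy_congr {ν μ : (k : Type) → [Field k] → [Finite k] → ℕ}
    (h : ∀ (k : Type) [Field k] [Finite k], ν k = μ k) (hμ : Asy μ) : Asy ν := by
  obtain ⟨C, N, hN, g⟩ := hμ
  refine ⟨C, N, hN, fun k _ _ hk => ?_⟩
  rw [h k]
  exact g k hk

theorem card_split {α : Type} [Finite α] (p q r : α → Prop) (h1 : ∀ x, p x ↔ q x ∨ r x)
    (h2 : ∀ x, ¬ (q x ∧ r x)) :
    Nat.card {x // p x} = Nat.card {x // q x} + Nat.card {x // r x} := by
  classical
  have e1 : Nat.card {x // p x} = Set.ncard {x | p x} := rfl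
  have e2 : Nat.card {x // q x} = Set.ncard {x | q x} := rfl
  have e3 : Nat.card {x // r x} = Set.ncard {x | r x} := rfl
  rw [e1, e2, e3, ← Set.ncard_union_eq]
  · congr 1
    ext x
    exact h1 x
  · rw [Set.disjoint_left]
    intro x hx hx'
    exact h2 x ⟨hx, hx'⟩

theorem asy_nu (hadd : S_ADD) (hL : S_LANDAU) (A : Type) [CommRing A] [Algebra.FiniteType ℤ A] :
    ∀ (I : Ideal A) (t : A), Asy (nu A I t) := by
  have hN : IsNoetherianRing A := Algebra.FiniteType.isNoetherianRing ℤ A
  intro I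
  have hwf : WellFoundedGT (Ideal A) := inferInstance
  induction I using WellFoundedGT.induction with
  | ind I ih =>
  intro t
  have key : ∀ (a : A), a ∉ I → ∀ t, Asy (nu A (I ⊔ Ideal.span {a}) t) := by
    intro a ha t
    refine ih _ ?_ t
    rw [lt_iff_le_and_ne]
    refine ⟨le_sup_left, ?_⟩
    intro h
    apply ha
    rw [h]
    exact Ideal.mem_sup_right (Ideal.mem_span_singleton_self a)
  have hsup : ∀ (a : A) (k : Type) [Field k] (φ : A →+* k),
      (∀ x ∈ I ⊔ Ideal.span {a}, φ x = 0) ↔ (∀ x ∈ I, φ x = 0) ∧ φ a = 0 := by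
    intro a k _ φ
    constructor
    · intro h
      exact ⟨fun x hx => h x (Ideal.mem_sup_left hx), h a (Ideal.mem_sup_right (Ideal.mem_span_singleton_self a))⟩
    · rintro ⟨h1, h2⟩ x hx
      have h3 : I ⊔ Ideal.span {a} ≤ RingHom.ker φ := by
        rw [sup_le_iff]
        refine ⟨fun y hy => h1 y hy, ?_⟩
        rw [Ideal.span_le, Set.singleton_subset_iff]
        exact h2
      exact h3 hx
  by_cases htop : I = ⊤
  · refine asy_zero _ 1 one_ne_zero ?_
    intro k _ _ _
    have : IsEmpty {φ : A →+* k // (∀ a ∈ I, φ a = 0) ∧ φ t ≠ 0} := by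
      constructor
      rintro ⟨φ, h, -⟩
      have := h 1 (by rw [htop]; trivial)
      rw [map_one] at this
      exact one_ne_zero this
    exact Nat.card_of_isEmpty
  by_cases hp : I.IsPrime
  · -- the prime case
    have hdom : IsDomain (A ⧸ I) := Ideal.Quotient.isDomain I
    by_cases htI : t ∈ I
    · refine asy_zero _ 1 one_ne_zero ?_
      intro k _ _ _
      have : IsEmpty {φ : A →+* k // (∀ a ∈ I, φ a = 0) ∧ φ t ≠ 0} := by
        constructor
        rintro ⟨φ, h, h'⟩
        exact h' (h t htI)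
      exact Nat.card_of_isEmpty
    by_cases hchar : ∃ p : ℕ, p ≠ 0 ∧ ((p : ℕ) : A ⧸ I) = 0
    · obtain ⟨p, hp0, hpz⟩ := hchar
      refine asy_zero _ p hp0 ?_
      intro k _ _ hk
      have : IsEmpty {φ : A →+* k // (∀ a ∈ I, φ a = 0) ∧ φ t ≠ 0} := by
        constructor
        rintro ⟨φ, h, h'⟩
        apply hk
        have h3 : ((p : ℕ) : A) ∈ I := by
          rw [← Ideal.Quotient.eq_zero_iff_mem, map_natCast]
          exact hpz
        have := h _ h3
        rwa [map_natCast] at this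
      exact Nat.card_of_isEmpty
    push Not at hchar
    have hcz : CharZero (A ⧸ I) := by
      refine charZero_of_inj_zero ?_
      intro n hn
      by_contra h
      exact hchar n h hn
    have hft : @Algebra.FiniteType ℤ (A ⧸ I) _ _ (Ring.toIntAlgebra (A ⧸ I)) :=
      @Algebra.FiniteType.of_surjective ℤ A (A ⧸ I) _ _ _ _ (Ring.toIntAlgebra (A ⧸ I)) inferInstance
        (Ideal.Quotient.mk I).toIntAlgHom Ideal.Quotient.mk_surjective
    obtain ⟨L, iL, nL, d, -, ⟨j⟩, hLan⟩ := hL (A ⧸ I)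
    obtain ⟨s, hs0, hs⟩ := hLan
    obtain ⟨a, ha0, ha⟩ := exists_hom (A := A ⧸ I) (M := FractionRing (A ⧸ I)) (L := L)
      (j.comp (algebraMap (𝓞 L) L))
    obtain ⟨s, rfl⟩ := Ideal.Quotient.mk_surjective s
    obtain ⟨a, rfl⟩ := Ideal.Quotient.mk_surjective a
    have htq : Ideal.Quotient.mk I t ≠ 0 := by
      rw [ne_eq, Ideal.Quotient.eq_zero_iff_mem]
      exact htI
    have hprod : s * a ∉ I := by
      rw [← Ideal.Quotient.eq_zero_iff_mem, map_mul]
      exact mul_ne_zero hs0 ha0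
    obtain ⟨C, N, hC0, hN0, hC⟩ := hs (Ideal.Quotient.mk I (t * (s * a)))
      (by rw [map_mul, map_mul]; exact mul_ne_zero htq (mul_ne_zero hs0 ha0))
      ⟨Ideal.Quotient.mk I (t * a), by rw [← map_mul]; congr 1; ring⟩
    have h1 : Asy (nu A I (t * (s * a))) := by
      refine ⟨⌈C⌉₊ + d + Module.finrank ℤ (𝓞 L), N, hN0, fun k _ _ hk => ?_⟩
      have e1 : nu A I (t * (s * a)) k =
          Nat.card {φ : A ⧸ I →+* k // φ (Ideal.Quotient.mk I (t * (s * a))) ≠ 0} := by
        unfold nu
        refine Nat.card_congr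
          { toFun := fun φ => ⟨Ideal.Quotient.lift I φ.1 φ.2.1, ?_⟩
            invFun := fun φ => ⟨φ.1.comp (Ideal.Quotient.mk I), ?_, ?_⟩
            left_inv := ?_
            right_inv := ?_ }
        · rw [Ideal.Quotient.lift_mk]
          exact φ.2.2
        · intro x hx
          rw [RingHom.comp_apply, Ideal.Quotient.eq_zero_iff_mem.2 hx, map_zero]
        · exact φ.2
        · intro φ
          apply Subtype.ext
          exact RingHom.ext fun x => by rw [RingHom.comp_apply, Ideal.Quotient.lift_mk]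
        · intro φ
          apply Subtype.ext
          exact Ideal.Quotient.ringHom_ext (RingHom.ext fun x => by
            rw [RingHom.comp_apply, Ideal.Quotient.lift_mk])
      have hfk : Finite (A ⧸ I →+* k) := hom_finite _ _
      refine ⟨Nat.card (𝓞 L →+* k), d, ?_, by omega, ?_, ?_⟩
      · exact (Pool.Agent.W385.CP.hom_int L k).2.trans (by omega)
      · intro h0
        rw [e1]
        have : IsEmpty {φ : A ⧸ I →+* k // φ (Ideal.Quotient.mk I (t * (s * a))) ≠ 0} := by
          constructor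
          rintro ⟨φ, hφ⟩
          have hφa : φ (Ideal.Quotient.mk I a) ≠ 0 := by
            intro h
            apply hφ
            rw [map_mul, map_mul, map_mul, map_mul, h, mul_zero, mul_zero]
          obtain ⟨ψ⟩ := ha k φ hφa
          have := (Pool.Agent.W385.CP.hom_int L k).1
          have h5 : 0 < Nat.card (𝓞 L →+* k) := by
            have : Nonempty (𝓞 L →+* k) := ⟨ψ⟩
            exact Nat.card_pos
          omega
        exact Nat.card_of_isEmpty
      · rw [e1]
        refine (hC k hk).trans ?_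
        refine mul_le_mul_of_nonneg_right ?_ (by positivity)
        have := Nat.le_ceil C
        push_cast
        have h7 : (0 : ℝ) ≤ d := Nat.cast_nonneg _
        have h8 : (0 : ℝ) ≤ Module.finrank ℤ (𝓞 L) := Nat.cast_nonneg _
        linarith
    have h2 := key _ hprod t
    refine asy_congr ?_ (hadd _ _ h1 h2)
    intro k _ _
    have hfk : Finite (A →+* k) := hom_finite _ _
    unfold nu
    refine card_split _ _ _ ?_ ?_
    · intro φ
      rw [hsup, map_mul φ t]
      constructor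
      · rintro ⟨h3, h4⟩
        by_cases h5 : φ (s * a) = 0
        · exact Or.inr ⟨⟨h3, h5⟩, h4⟩
        · exact Or.inl ⟨h3, mul_ne_zero h4 h5⟩
      · rintro (⟨h3, h4⟩ | ⟨⟨h3, -⟩, h4⟩)
        · exact ⟨h3, left_ne_zero_of_mul h4⟩
        · exact ⟨h3, h4⟩
    · intro φ
      rw [hsup, map_mul φ t]
      rintro ⟨⟨-, h4⟩, ⟨-, h5⟩, -⟩
      exact h4 (by rw [h5, mul_zero])
  · -- not prime
    have h1 : ∃ a b : A, a ∉ I ∧ b ∉ I ∧ a * b ∈ I := by
      by_contra h
      push Not at h
      apply hp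
      refine ⟨htop, ?_⟩
      intro x y hxy
      by_contra h5
      rw [not_or] at h5
      exact h x y h5.1 h5.2 hxy
    obtain ⟨a, b, ha, hb, hab⟩ := h1
    refine asy_congr ?_ (hadd _ _ (key a ha t) (key b hb (a * t)))
    intro k _ _
    have hfk : Finite (A →+* k) := hom_finite _ _
    unfold nu
    refine card_split _ _ _ ?_ ?_
    · intro φ
      rw [hsup, hsup, map_mul φ a]
      constructor
      · rintro ⟨h3, h4⟩
        by_cases h5 : φ a = 0
        · exact Or.inl ⟨⟨h3, h5⟩, h4⟩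
        · refine Or.inr ⟨⟨h3, ?_⟩, mul_ne_zero h5 h4⟩
          have := h3 _ hab
          rw [map_mul] at this
          exact (mul_eq_zero.1 this).resolve_left h5
      · rintro (⟨⟨h3, -⟩, h4⟩ | ⟨⟨h3, -⟩, h4⟩)
        · exact ⟨h3, h4⟩
        · exact ⟨h3, right_ne_zero_of_mul h4⟩
    · intro φ
      rw [hsup, hsup, map_mul φ a]
      rintro ⟨⟨⟨-, h4⟩, -⟩, -, h5⟩
      exact h5 (by rw [h4, zero_mul])

theorem t_RING (hadd : S_ADD) (hL : S_LANDAU) : S_RING := by
  intro A _ _ t
  refine asy_congr ?_ (asy_nu hadd hL A ⊥ t)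
  intro k _ _
  unfold nu
  refine Nat.card_congr (Equiv.subtypeEquivRight fun φ => ?_)
  constructor
  · intro h
    refine ⟨?_, h⟩
    intro a ha
    rw [Ideal.mem_bot] at ha
    rw [ha, map_zero]
  · exact fun h => h.2

end Pool.Agent.T2h48.LZ
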