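import Pool.Agent.T2h48.LZ.Stm

/-!
# DROP: a nonzero function on an affine variety vanishes at few points
-/

set_option autoImplicit false

namespace Pool.Agent.T2h48.LZ

open MvPolynomial

/-- elements of `ℚ[A]` are quotients of elements of `A` by integers -/
theorem clear_den {A M : Type} [CommRing A] [Field M] [CharZero M] (ι : A →+* M) (S : Set A) (b : M)
    (hb : b ∈ Algebra.adjoin ℚ (ι '' S)) : ∃ (c : ℤ) (a : A), c ≠ 0 ∧ ι a = c * b := by
  induction hb using Algebra.adjoin_induction with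
  | mem x hx =>
    obtain ⟨a, _, rfl⟩ := hx
    exact ⟨1, a, one_ne_zero, by simp⟩
  | algebraMap r =>
    refine ⟨r.den, (r.num : A), by exact_mod_cast r.den_nz, ?_⟩
    rw [map_intCast]
    have h : (r.num : ℚ) = r.den * r := (Rat.den_mul_eq_num r).symm
    have := congrArg (algebraMap ℚ M) h
    rw [map_intCast, map_mul, map_natCast] at this
    rw [this]
    push_cast
    rfl
  | add x y _ _ hx hy =>
    obtain ⟨c, a, hc, h⟩ := hx
    obtain ⟨c', a', hc', h'⟩ := hy
    refine ⟨c * c', c' * a + c * a', mul_ne_zero hc hc', ?_⟩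
    rw [map_add, map_mul, map_mul, h, h', map_intCast, map_intCast]
    push_cast
    ring
  | mul x y _ _ hx hy =>
    obtain ⟨c, a, hc, h⟩ := hx
    obtain ⟨c', a', hc', h'⟩ := hy
    refine ⟨c * c', a * a', mul_ne_zero hc hc', ?_⟩
    rw [map_mul, h, h']
    push_cast
    ring

attribute [local instance] MvPolynomial.algebraMvPolynomial in
/-- clearing denominators in an integral equation -/
theorem int_mult {m : ℕ} {M : Type} [Field M] (f : MvPolynomial (Fin m) ℚ →+* M) (x : M)
    (hx : f.IsIntegralElem x) : ∃ N : ℤ, N ≠ 0 ∧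
      (f.comp (MvPolynomial.map (Int.castRingHom ℚ))).IsIntegralElem ((N : M) * x) := by
  let i1 : Algebra (MvPolynomial (Fin m) ℚ) M := f.toAlgebra
  let i2 : Algebra (MvPolynomial (Fin m) ℤ) M :=
    (f.comp (MvPolynomial.map (Int.castRingHom ℚ))).toAlgebra
  have : IsScalarTower (MvPolynomial (Fin m) ℤ) (MvPolynomial (Fin m) ℚ) M :=
    IsScalarTower.of_algebraMap_eq fun x => rfl
  have hx' : IsIntegral (MvPolynomial (Fin m) ℚ) x := hx
  obtain ⟨⟨w, hw⟩, hm⟩ := IsIntegral.exists_multiple_integral_of_isLocalization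
    ((nonZeroDivisors ℤ).map (MvPolynomial.C (σ := Fin m))) x hx'
  obtain ⟨N, hN, rfl⟩ := hw
  refine ⟨N, nonZeroDivisors.ne_zero hN, ?_⟩
  have e : ((⟨MvPolynomial.C N, ⟨N, hN, rfl⟩⟩ : (nonZeroDivisors ℤ).map (MvPolynomial.C (σ := Fin m))) • x) =
      (N : M) * x := by
    rw [Submonoid.smul_def, Algebra.smul_def]
    change f (MvPolynomial.map (Int.castRingHom ℚ) (C N)) * x = _
    rw [map_C]
    simp
  rw [e] at hm
  exact hm

/-- Noether normalisation over `ℤ`, up to integer multiples -/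
theorem noeth (A : Type) [CommRing A] [Algebra.FiniteType ℤ A] (M : Type) [Field M] [CharZero M]
    (ι : A →+* M) (hιinj : Function.Injective ι) (d : ℕ)
    (hd : Algebra.trdeg ℚ M = d) : ∃ (m : ℕ) (y : Fin m → A), m ≤ d ∧
      ∀ a : A, ∃ N : ℤ, N ≠ 0 ∧
        ((aeval y : MvPolynomial (Fin m) ℤ →ₐ[ℤ] A) : MvPolynomial (Fin m) ℤ →+* A).IsIntegralElem
          ((N : A) * a) := by
  classical
  obtain ⟨S, hS⟩ := (inferInstance : Algebra.FiniteType ℤ A).out
  set B : Subalgebra ℚ M := Algebra.adjoin ℚ (ι '' (S : Set A)) with hB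
  have hAB : ∀ a : A, ι a ∈ B := by
    intro a
    have ha : a ∈ Algebra.adjoin ℤ (S : Set A) := by rw [hS]; trivial
    induction ha using Algebra.adjoin_induction with
    | mem x hx => exact Algebra.subset_adjoin ⟨x, hx, rfl⟩
    | algebraMap r =>
      have : ι (algebraMap ℤ A r) = (r : M) := by simp
      rw [this]
      exact intCast_mem B r
    | add x y _ _ hx hy => rw [map_add]; exact B.add_mem hx hy
    | mul x y _ _ hx hy => rw [map_mul]; exact B.mul_mem hx hy
  have : Algebra.FiniteType ℚ B := by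
    rw [← Subalgebra.fg_iff_finiteType]
    exact ⟨S.image ι, by rw [Finset.coe_image]⟩
  obtain ⟨m, g, hinj, hint⟩ := exists_integral_inj_algHom_of_fg ℚ B
  have hch : ∀ j : Fin m, ∃ (c : ℤ) (a : A), c ≠ 0 ∧ ι a = c * (g (X j) : M) := fun j =>
    clear_den ι (S : Set A) _ (g (X j)).2
  choose c y hc hy using hch
  -- algebraic independence
  have hval : (aeval (fun j => (g (X j) : M)) : MvPolynomial (Fin m) ℚ →ₐ[ℚ] M) = B.val.comp g := by
    apply MvPolynomial.algHom_ext
    intro j
    simp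
  have hai : AlgebraicIndependent ℚ (fun j => (g (X j) : M)) := by
    unfold AlgebraicIndependent
    rw [hval]
    exact Subtype.val_injective.comp hinj
  have hmd : m ≤ d := by
    have := hai.lift_cardinalMk_le_trdeg
    rw [hd] at this
    simpa using this
  refine ⟨m, y, hmd, fun a => ?_⟩
  -- the scaling automorphism
  set σ : MvPolynomial (Fin m) ℚ →ₐ[ℚ] MvPolynomial (Fin m) ℚ := aeval fun j => C (c j : ℚ) * X j with hσ
  have hσs : Function.Surjective σ := by
    set τ : MvPolynomial (Fin m) ℚ →ₐ[ℚ] MvPolynomial (Fin m) ℚ := aeval fun j => C ((c j : ℚ)⁻¹) * X j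
      with hτ
    have : σ.comp τ = AlgHom.id ℚ _ := by
      apply MvPolynomial.algHom_ext
      intro j
      rw [AlgHom.comp_apply, hτ, aeval_X, map_mul, hσ, aeval_X, ← algebraMap_eq, AlgHom.commutes,
        algebraMap_eq, ← mul_assoc, ← C_mul, inv_mul_cancel₀ (by exact_mod_cast hc j), C_1, one_mul]
      rfl
    intro p
    exact ⟨τ p, congrArg (fun f : MvPolynomial (Fin m) ℚ →ₐ[ℚ] MvPolynomial (Fin m) ℚ => f p) this⟩
  have hint' : ((B.val : B →+* M).comp ((g : MvPolynomial (Fin m) ℚ →+* B).comp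
      (σ : MvPolynomial (Fin m) ℚ →+* MvPolynomial (Fin m) ℚ))).IsIntegralElem (ι a) := by
    have h1 : ((g : MvPolynomial (Fin m) ℚ →+* B).comp
      (σ : MvPolynomial (Fin m) ℚ →+* MvPolynomial (Fin m) ℚ)).IsIntegralElem ⟨ι a, hAB a⟩ :=
      RingHom.IsIntegral.trans _ _ (RingHom.isIntegral_of_surjective _ hσs) hint ⟨ι a, hAB a⟩
    obtain ⟨p, hp, hp0⟩ := h1
    refine ⟨p, hp, ?_⟩
    have h2 := Polynomial.hom_eval₂ p ((g : MvPolynomial (Fin m) ℚ →+* B).comp
      (σ : MvPolynomial (Fin m) ℚ →+* MvPolynomial (Fin m) ℚ)) (B.val : B →+* M) ⟨ι a, hAB a⟩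
    rw [hp0, map_zero] at h2
    exact h2.symm
  obtain ⟨N, hN, p, hp, hp0⟩ := int_mult _ _ hint'
  have hcomp : ι.comp ((aeval y : MvPolynomial (Fin m) ℤ →ₐ[ℤ] A) : MvPolynomial (Fin m) ℤ →+* A) =
      ((B.val : B →+* M).comp ((g : MvPolynomial (Fin m) ℚ →+* B).comp
      (σ : MvPolynomial (Fin m) ℚ →+* MvPolynomial (Fin m) ℚ))).comp
        (MvPolynomial.map (Int.castRingHom ℚ)) := by
    apply MvPolynomial.ringHom_ext
    · intro r
      simp
    · intro j
      rw [RingHom.comp_apply]
      simp only [RingHom.coe_coe, aeval_X, RingHom.coe_comp, Function.comp_apply, map_X]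
      rw [hy, hσ, aeval_X, map_mul, ← algebraMap_eq, AlgHom.commutes]
      simp
  refine ⟨N, hN, p, hp, ?_⟩
  apply hιinj
  rw [map_zero, Polynomial.hom_eval₂, map_mul, map_intCast, hcomp]
  exact hp0

/-- a polynomial relation bounds the number of values -/
theorem fib_card {m : ℕ} {A : Type} [CommRing A] (y : Fin m → A) (S : Finset A)
    (hS : Algebra.adjoin ℤ (S : Set A) = ⊤) (N : A → ℤ)
    (P : A → Polynomial (MvPolynomial (Fin m) ℤ)) (hP : ∀ a, (P a).Monic)
    (hPe : ∀ a, (P a).eval₂ ((aeval y : MvPolynomial (Fin m) ℤ →ₐ[ℤ] A) : MvPolynomial (Fin m) ℤ →+* A)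
      ((N a : A) * a) = 0)
    (k : Type) [Field k] [Finite k] [Fintype (A →+* k)] [DecidableEq (Fin m → k)]
    (hN : ∀ a ∈ S, ((N a : ℤ) : k) ≠ 0) (z : Fin m → k) :
    (Finset.univ.filter fun φ : A →+* k => (fun j => φ (y j)) = z).card ≤
      ∏ a ∈ S, (P a).natDegree := by
  classical
  let Q : A → Polynomial k := fun a => (P a).map (eval₂Hom (Int.castRingHom k) z)
  have hQ : ∀ a, (Q a) ≠ 0 := fun a => ((hP a).map _).ne_zero
  have hQd : ∀ a, (Q a).natDegree = (P a).natDegree := fun a => (hP a).natDegree_map _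
  have hkey : ∀ φ : A →+* k, (fun j => φ (y j)) = z → ∀ a, (Q a).IsRoot ((N a : k) * φ a) := by
    intro φ hφ a
    rw [Polynomial.IsRoot.def, Polynomial.eval_map]
    have := congrArg φ (hPe a)
    rw [map_zero, Polynomial.hom_eval₂, map_mul, map_intCast] at this
    convert this using 2
    apply MvPolynomial.ringHom_ext
    · intro r
      simp
    · intro j
      simp [← hφ]
  have h1 : (Finset.univ.filter fun φ : A →+* k => (fun j => φ (y j)) = z).card ≤
      (S.pi fun a => (Q a).roots.toFinset).card := by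
    apply Finset.card_le_card_of_injOn (fun φ => fun a _ => (N a : k) * φ a)
    · intro φ hφ
      rw [Finset.mem_coe, Finset.mem_filter] at hφ
      rw [Finset.mem_coe, Finset.mem_pi]
      intro a ha
      rw [Multiset.mem_toFinset, Polynomial.mem_roots (hQ a)]
      exact hkey φ hφ.2 a
    · intro φ _ ψ _ h
      have h2 : ∀ a ∈ S, φ a = ψ a := by
        intro a ha
        have := congrFun (congrFun h a) ha
        exact mul_left_cancel₀ (hN a ha) this
      have h3 : φ.toIntAlgHom = ψ.toIntAlgHom := by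
        apply AlgHom.ext_of_adjoin_eq_top hS
        intro a ha
        exact h2 a ha
      ext x
      exact congrArg (fun f : A →ₐ[ℤ] k => f x) h3
  refine h1.trans ?_
  rw [Finset.card_pi]
  apply Finset.prod_le_prod' 
  intro a _
  exact (Multiset.toFinset_card_le _).trans ((Polynomial.card_roots' _).trans (hQd a).le)

theorem deg_map {m : ℕ} {k : Type} [Field k] (h : MvPolynomial (Fin m) ℤ) (f : ℤ →+* k) :
    (MvPolynomial.map f h).totalDegree ≤ h.totalDegree := by
  unfold totalDegree
  exact Finset.sup_mono (support_map_subset f h)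

theorem t_DROP : S_DROP := by
  intro A _ _ _ _ d hd s hs
  obtain ⟨S, hS⟩ := (inferInstance : Algebra.FiniteType ℤ A).out
  obtain ⟨m, y, hmd, hy⟩ := noeth A (FractionRing A) (algebraMap A (FractionRing A))
    (IsFractionRing.injective A (FractionRing A)) d hd
  choose N hN P hP hPe using hy
  -- a nonzero multiple of `s` in the polynomial ring
  have hh : ∃ h : MvPolynomial (Fin m) ℤ, h ≠ 0 ∧ ∃ b : A, aeval y h = b * s := by
    let : Algebra (MvPolynomial (Fin m) ℤ) A :=
      ((aeval y : MvPolynomial (Fin m) ℤ →ₐ[ℤ] A) : MvPolynomial (Fin m) ℤ →+* A).toAlgebra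
    have hne : (N s : A) * s ≠ 0 := mul_ne_zero (by exact_mod_cast hN s) hs
    have := Ideal.comap_ne_bot_of_integral_mem (R := MvPolynomial (Fin m) ℤ)
      (I := Ideal.span {(N s : A) * s}) hne (Ideal.mem_span_singleton_self _) ⟨P s, hP s, hPe s⟩
    obtain ⟨h, hmem, hne'⟩ := Submodule.exists_mem_ne_zero_of_ne_bot this
    refine ⟨h, hne', ?_⟩
    rw [Ideal.mem_comap, Ideal.mem_span_singleton'] at hmem
    obtain ⟨b, hb⟩ := hmem
    refine ⟨b * (N s : A), ?_⟩
    rw [mul_assoc, hb]
    rfl
  obtain ⟨h, hh0, b, hb⟩ := hh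
  obtain ⟨v, hv⟩ := MvPolynomial.ne_zero_iff.1 hh0
  refine ⟨(∏ a ∈ S, (P a).natDegree) * h.totalDegree,
    (∏ a ∈ S, (N a).natAbs) * (coeff v h).natAbs, ?_, ?_⟩
  · refine mul_ne_zero (Finset.prod_ne_zero_iff.2 fun a _ => Int.natAbs_ne_zero.2 (hN a)) ?_
    exact Int.natAbs_ne_zero.2 hv
  intro k _ _ hk
  classical
  have : Fintype k := Fintype.ofFinite k
  rw [Nat.cast_mul, Nat.cast_prod] at hk
  have hk1 : ∀ a ∈ S, ((N a : ℤ) : k) ≠ 0 := by
    intro a ha h0
    apply left_ne_zero_of_mul hk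
    apply Finset.prod_eq_zero ha
    have : ((N a).natAbs : k) = 0 := by
      rcases Int.natAbs_eq (N a) with h' | h'
      · rw [h'] at h0
        simpa using h0
      · rw [h'] at h0
        simpa using h0
    exact this
  have hk2 : ((coeff v h : ℤ) : k) ≠ 0 := by
    intro h0
    apply right_ne_zero_of_mul hk
    rcases Int.natAbs_eq (coeff v h) with h' | h'
    · rw [h'] at h0
      simpa using h0
    · rw [h'] at h0
      simpa using h0
  have : Finite (A →+* k) := by
    apply Finite.of_injective (fun φ : A →+* k => fun a : S => φ (a : A))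
    intro φ ψ hφψ
    have h3 : φ.toIntAlgHom = ψ.toIntAlgHom := by
      apply AlgHom.ext_of_adjoin_eq_top hS
      intro a ha
      exact congrFun hφψ ⟨a, ha⟩
    ext x
    exact congrArg (fun f : A →ₐ[ℤ] k => f x) h3
  have : Fintype (A →+* k) := Fintype.ofFinite _
  set hm : MvPolynomial (Fin m) k := MvPolynomial.map (Int.castRingHom k) h with hhm
  have hm0 : hm ≠ 0 := by
    intro h0
    apply hk2
    have := congrArg (coeff v) h0
    rw [hhm, coeff_map, coeff_zero] at this
    simpa using this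
  have hev : ∀ φ : A →+* k, φ s = 0 → eval (fun j => φ (y j)) hm = 0 := by
    intro φ hφ
    have h1 := congrArg φ hb
    rw [map_mul, hφ, mul_zero] at h1
    rw [hhm, eval_map, ← h1]
    rw [← MvPolynomial.coe_eval₂Hom]
    have : (eval₂Hom (Int.castRingHom k) fun j => φ (y j)) =
        φ.comp ((aeval y : MvPolynomial (Fin m) ℤ →ₐ[ℤ] A) : MvPolynomial (Fin m) ℤ →+* A) := by
      apply MvPolynomial.ringHom_ext
      · intro r
        simp
      · intro j
        simp
    rw [this]
    rfl
  set Z : Finset (Fin m → k) := Finset.univ.filter fun z => eval z hm = 0 with hZ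
  have hc1 : Nat.card {φ : A →+* k // φ s = 0} = (Finset.univ.filter fun φ : A →+* k => φ s = 0).card := by
    rw [Nat.card_eq_fintype_card, Fintype.card_subtype]
  have hc2 : (Finset.univ.filter fun φ : A →+* k => φ s = 0).card ≤ (∏ a ∈ S, (P a).natDegree) * Z.card := by
    apply Finset.card_le_mul_card_image_of_maps_to (f := fun φ : A →+* k => fun j => φ (y j))
    · intro φ hφ
      rw [Finset.mem_filter] at hφ
      rw [hZ, Finset.mem_filter]
      exact ⟨Finset.mem_univ _, hev φ hφ.2⟩
    · intro z _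
      refine le_trans (Finset.card_le_card ?_) (fib_card y S hS N P hP hPe k hk1 z)
      intro φ hφ
      rw [Finset.mem_filter] at hφ ⊢
      exact ⟨Finset.mem_univ _, hφ.2⟩
  have hc3 : Z.card * Nat.card k ≤ h.totalDegree * Nat.card k ^ d := by
    have hsz := schwartz_zippel_totalDegree hm0 (Finset.univ : Finset k)
    have hkpos : 0 < Fintype.card k := Fintype.card_pos
    rw [Fintype.piFinset_univ, Finset.card_univ, ← hZ] at hsz
    have hdeg : hm.totalDegree ≤ h.totalDegree := by
      rw [hhm]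
      exact deg_map h _
    have h1 : (Z.card : ℚ≥0) * Fintype.card k ≤ hm.totalDegree * (Fintype.card k) ^ m := by
      rw [div_le_div_iff₀ (by positivity) (by positivity)] at hsz
      exact hsz
    have h2 : Z.card * Fintype.card k ≤ hm.totalDegree * (Fintype.card k) ^ m := by exact_mod_cast h1
    rw [Nat.card_eq_fintype_card]
    refine h2.trans (Nat.mul_le_mul hdeg (Nat.pow_le_pow_right hkpos hmd))
  calc Nat.card {φ : A →+* k // φ s = 0} * Nat.card k
      ≤ ((∏ a ∈ S, (P a).natDegree) * Z.card) * Nat.card k := by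
        rw [hc1]
        exact Nat.mul_le_mul_right _ hc2
    _ = (∏ a ∈ S, (P a).natDegree) * (Z.card * Nat.card k) := by ring
    _ ≤ (∏ a ∈ S, (P a).natDegree) * (h.totalDegree * Nat.card k ^ d) := Nat.mul_le_mul_left _ hc3
    _ = _ := by ring

end Pool.Agent.T2h48.LZ
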