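import Pool.Agent.T2h48.LZ.Stm1

/-! The number of the points of a scheme of finite type over the integers with values in a finite
field: the library theorem `R410.LW.landau` with an embedding `L → M`. -/

set_option autoImplicit false
set_option linter.all false
set_option maxHeartbeats 4000000

open Polynomial NumberField

namespace Pool.Agent.T2h48.LZ

open Pool.Agent.R410.LW

theorem landau_zero2 {M : Type} [Field M] [CharZero M] (hM : FG M) (h : Algebra.trdeg ℚ M = 0) :
    ∃ (L : Type) (_ : Field L) (_ : NumberField L), Nonempty (L →+* M) ∧ ∀ (A : Type) [CommRing A] [IsDomain A]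
      [Algebra.FiniteType ℤ A] [Algebra A M] [IsFractionRing A M], Landau A 0 L := by
  have h1 : Algebra.IsAlgebraic ℚ M := trdeg_eq_zero_iff.1 h
  have h2 : FiniteDimensional ℚ M := finite_of_fg hM ℚ
  have h3 : NumberField M := { to_charZero := inferInstance, to_finiteDimensional := h2 }
  refine ⟨M, inferInstance, h3, ⟨RingHom.id M⟩, ?_⟩
  intro A _ _ _ _ _
  have h4 : Algebra.FiniteType ℤ (𝓞 M) := inferInstance
  exact transfer (A := 𝓞 M) (B := A) (M := M) (landau_zero M)

theorem landau_succ2 {d : ℕ} (ih : ∀ (M : Type) [Field M] [CharZero M], FG M →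
      Algebra.trdeg ℚ M = d → ∃ (L : Type) (_ : Field L) (_ : NumberField L), Nonempty (L →+* M) ∧
        ∀ (A : Type) [CommRing A] [IsDomain A] [Algebra.FiniteType ℤ A] [Algebra A M]
          [IsFractionRing A M], Landau A d L)
    {M : Type} [Field M] [CharZero M] (hM : FG M) (h : Algebra.trdeg ℚ M = (d + 1 : ℕ)) :
    ∃ (L : Type) (_ : Field L) (_ : NumberField L), Nonempty (L →+* M) ∧ ∀ (A : Type) [CommRing A] [IsDomain A]
      [Algebra.FiniteType ℤ A] [Algebra A M] [IsFractionRing A M], Landau A (d + 1) L := by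
  classical
  obtain ⟨T, x, hx, hal⟩ := exists_sub h
  obtain ⟨F, hF⟩ : ∃ F, F = IntermediateField.adjoin ℚ (T : Set M) := ⟨_, rfl⟩
  rw [← hF] at hx hal
  have hfin : FiniteDimensional (IntermediateField.adjoin F {x}) M := finite_of_fg hM _
  obtain ⟨F₁, hF₁, θ, f, Om, iOm, hOm, aOm, hfm, hf0, hfirr, hker, hgen⟩ := structure_one x hx
  have hc1 : CharZero F₁ := charZero_of_injective_algebraMap (algebraMap F F₁).injective
  have hFG : FG F₁ := fg_sub T F hF F₁
  -- the transcendence degree
  have hx1 : Transcendental F₁ x := fun h1 => hx (h1.restrictScalars F)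
  have hal1 : Algebra.IsAlgebraic (IntermediateField.adjoin F₁ {x}) M := by
    set N1 := IntermediateField.adjoin F {x} with hN1
    set N2 := IntermediateField.adjoin F₁ {x} with hN2
    have hle : N1 ≤ N2.restrictScalars F := by
      rw [hN1, IntermediateField.adjoin_le_iff]
      exact IntermediateField.subset_adjoin F₁ {x}
    let _ : Algebra N1 N2 := ((algebraMap N1 M).codRestrict N2.toSubring fun z => hle z.2).toAlgebra
    have _ : IsScalarTower N1 N2 M := IsScalarTower.of_algebraMap_eq fun z => rfl
    exact Algebra.IsAlgebraic.tower_top (K := N1) N2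
  have htr : Algebra.trdeg ℚ F₁ = d := by
    have h1 := trdeg_add_eq ℚ F₁ (A := M)
    rw [trdeg_one x hx1, h, Nat.cast_add, Nat.cast_one] at h1
    exact Cardinal.add_one_inj.1 h1
  obtain ⟨L, iL, nL, ⟨jL⟩, hL⟩ := ih F₁ hFG htr
  refine ⟨L, iL, nL, ⟨(algebraMap F₁ M).comp jL⟩, ?_⟩
  intro A _ _ _ _ _
  -- the ring of coefficients
  obtain ⟨S, hS⟩ := hFG
  set S' : Finset F₁ := S ∪ (Finset.range (f.natDegree + 1)).biUnion fun i =>
    (Finset.range ((f.coeff i).natDegree + 1)).image fun l => (f.coeff i).coeff l with hS'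
  have hS'c : Subfield.closure (S' : Set F₁) = ⊤ := by
    rw [eq_top_iff, ← hS]
    refine Subfield.closure_mono ?_
    rw [hS', Finset.coe_union]
    exact Set.subset_union_left
  obtain ⟨hft, hfrac⟩ := closure_spec S' hS'c
  set A₁ := Algebra.adjoin ℤ (S' : Set F₁) with hA₁
  have hlift : f ∈ lifts (mapRingHom (algebraMap A₁ F₁)) := by
    rw [lifts_iff_coeff_lifts]
    intro i
    show f.coeff i ∈ Set.range (mapRingHom (algebraMap A₁ F₁))
    have h1 : f.coeff i ∈ lifts (algebraMap A₁ F₁) := by
      rw [lifts_iff_coeff_lifts]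
      intro l
      by_cases hi : i ≤ f.natDegree
      · by_cases hl : l ≤ (f.coeff i).natDegree
        · refine ⟨⟨(f.coeff i).coeff l, Algebra.subset_adjoin ?_⟩, rfl⟩
          rw [hS', Finset.coe_union]
          right
          rw [Finset.mem_coe, Finset.mem_biUnion]
          exact ⟨i, Finset.mem_range.2 (by omega), Finset.mem_image.2
            ⟨l, Finset.mem_range.2 (by omega), rfl⟩⟩
        · refine ⟨0, ?_⟩
          rw [map_zero, coeff_eq_zero_of_natDegree_lt (by omega)]
      · refine ⟨0, ?_⟩
        rw [map_zero, coeff_eq_zero_of_natDegree_lt (p := f) (by omega), coeff_zero]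
    obtain ⟨p, hp⟩ := (lifts_iff_set_range _).1 h1
    exact ⟨p, hp⟩
  obtain ⟨fA, hfA, hfAd, hfAm⟩ := lifts_and_natDegree_eq_and_monic hlift hfm
  have hcA : CharZero A₁ := charZero_of_injective_algebraMap (R := ℤ) (A := A₁) (by
    intro a b hab
    have h2 : (algebraMap A₁ F₁).comp (algebraMap ℤ A₁) = algebraMap ℤ F₁ := RingHom.ext_int _ _
    apply FaithfulSMul.algebraMap_injective ℤ F₁
    rw [← h2, RingHom.comp_apply, RingHom.comp_apply, hab])
  have hirrA : Irreducible (fA.map (mapRingHom ((algebraMap F₁ Om).comp (algebraMap A₁ F₁)))) := by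
    have h1 : fA.map (mapRingHom ((algebraMap F₁ Om).comp (algebraMap A₁ F₁))) =
        f.map (mapRingHom (algebraMap F₁ Om)) := by
      rw [← hfA, Polynomial.map_map, mapRingHom_comp]
    rw [h1]
    exact hfirr
  have hB := step (k₀ := F₁) (kb := Om) (hL A₁) hfAm (by rw [hfAd]; exact hf0) hirrA
  have hιO : Function.Injective ((algebraMap F₁ Om).comp (algebraMap A₁ F₁)) :=
    (algebraMap F₁ Om).injective.comp (IsFractionRing.injective A₁ F₁)
  have hdomB : IsDomain (AdjoinRoot fA) := adj_domain hιO hfAm hirrA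
  have hftB : Algebra.FiniteType ℤ (AdjoinRoot fA) := inferInstance
  -- the embedding
  set ι : A₁ →+* M := (algebraMap F₁ M).comp (algebraMap A₁ F₁) with hι
  have hmap : ∀ p : A₁[X][X], eval₂ (eval₂RingHom ι x) θ p =
      eval₂ (eval₂RingHom (algebraMap F₁ M) x) θ (p.map (mapRingHom (algebraMap A₁ F₁))) := by
    intro p
    rw [eval₂_map]
    congr 1
    apply Polynomial.ringHom_ext
    · intro c
      rw [coe_eval₂RingHom, eval₂_C, hι, RingHom.comp_apply, RingHom.comp_apply (eval₂RingHom _ _),
        coe_mapRingHom, Polynomial.map_C, coe_eval₂RingHom, eval₂_C]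
    · rw [coe_eval₂RingHom, eval₂_X, RingHom.comp_apply, coe_mapRingHom, Polynomial.map_X,
        coe_eval₂RingHom, eval₂_X]
  have hroot : eval₂ (eval₂RingHom ι x) θ fA = 0 := by
    rw [hmap, hker, hfA]
  let _ : Algebra (AdjoinRoot fA) M := (AdjoinRoot.lift (eval₂RingHom ι x) θ hroot).toAlgebra
  have halg : ∀ p, algebraMap (AdjoinRoot fA) M (AdjoinRoot.mk fA p) =
      eval₂ (eval₂RingHom ι x) θ p := fun p => AdjoinRoot.lift_mk hroot p
  have hinjB : Function.Injective (algebraMap (AdjoinRoot fA) M) := by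
    rw [injective_iff_map_eq_zero]
    intro b hb
    obtain ⟨p, rfl⟩ := AdjoinRoot.mk_surjective b
    rw [halg, hmap, hker, ← hfA] at hb
    rw [AdjoinRoot.mk_eq_zero]
    exact (Polynomial.map_dvd_map _
      (Polynomial.map_injective _ (IsFractionRing.injective A₁ F₁)) hfAm).1 hb
  have hfracB : IsFractionRing (AdjoinRoot fA) M := by
    refine frac_of_closure hinjB ?_
    set Cf := Subfield.closure (Set.range (algebraMap (AdjoinRoot fA) M)) with hCf
    have hxC : x ∈ Cf := Subfield.subset_closure ⟨AdjoinRoot.mk fA (C X), by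
      rw [halg, eval₂_C, coe_eval₂RingHom, eval₂_X]⟩
    have hθC : θ ∈ Cf := Subfield.subset_closure ⟨AdjoinRoot.mk fA X, by
      rw [halg, eval₂_X]⟩
    have hAC : ∀ a : A₁, ι a ∈ Cf := fun a => Subfield.subset_closure ⟨AdjoinRoot.mk fA (C (C a)), by
      rw [halg, eval₂_C, coe_eval₂RingHom, eval₂_C]⟩
    have hF₁C : ∀ z : F₁, (algebraMap F₁ M z) ∈ Cf := by
      intro z
      obtain ⟨a, b, -, rfl⟩ := IsFractionRing.div_surjective (A := A₁) z
      rw [map_div₀]
      exact div_mem (hAC a) (hAC b)
    rw [eq_top_iff]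
    intro z _
    have hz : z ∈ IntermediateField.adjoin F {x, θ} := by
      rw [hgen]
      trivial
    induction hz using IntermediateField.adjoin_induction with
    | mem z hz =>
      rcases hz with rfl | hz
      · exact hxC
      · rw [Set.mem_singleton_iff] at hz
        rw [hz]
        exact hθC
    | algebraMap q => exact hF₁C (algebraMap F F₁ q)
    | add x y _ _ h1 h2 => exact add_mem (h1 trivial) (h2 trivial)
    | inv x _ h1 => exact inv_mem (h1 trivial)
    | mul x y _ _ h1 h2 => exact mul_mem (h1 trivial) (h2 trivial)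
  have hftB' := ft_int _ hftB
  exact transfer (A := AdjoinRoot fA) (B := A) (M := M) hB

/-- **The number of the points of a scheme of finite type over the integers with values in a finite
field**: for every finitely generated field `M` of characteristic zero and transcendence degree `d` there
is a number field `L` such that, for every model `A` of `M`, the number of the points is that of the
ring of integers of `L` times `q ^ d`, up to `O(q ^ (d - 1 / 2))`. -/
theorem landau2 : ∀ (d : ℕ) (M : Type) [Field M] [CharZero M], FG M →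
      Algebra.trdeg ℚ M = d → ∃ (L : Type) (_ : Field L) (_ : NumberField L), Nonempty (L →+* M) ∧
        ∀ (A : Type) [CommRing A] [IsDomain A] [Algebra.FiniteType ℤ A] [Algebra A M]
          [IsFractionRing A M], Landau A d L := by
  intro d
  induction d with
  | zero =>
    intro M _ _ hM h
    exact landau_zero2 hM (by simpa using h)
  | succ d ih =>
    intro M _ _ hM h
    exact landau_succ2 ih hM h

theorem fg_of_ft2 {A M : Type} [CommRing A] [Algebra.FiniteType ℤ A] [Field M] [Algebra A M]
    [IsFractionRing A M] : FG M := by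
  classical
  obtain ⟨S, hS⟩ := (inferInstance : Algebra.FiniteType ℤ A).out
  refine ⟨S.image (algebraMap A M), ?_⟩
  have key : ∀ a : A, algebraMap A M a ∈
      Subfield.closure ((S.image (algebraMap A M) : Finset M) : Set M) := by
    intro a
    have ha : a ∈ Algebra.adjoin ℤ (S : Set A) := by rw [hS]; trivial
    induction ha using Algebra.adjoin_induction with
    | mem x hx =>
      refine Subfield.subset_closure ?_
      rw [Finset.coe_image]
      exact ⟨x, hx, rfl⟩
    | algebraMap n =>
      rw [eq_intCast, map_intCast]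
      exact intCast_mem _ n
    | add x y _ _ h1 h2 => rw [map_add]; exact add_mem h1 h2
    | mul x y _ _ h1 h2 => rw [map_mul]; exact mul_mem h1 h2
  rw [eq_top_iff]
  intro z _
  obtain ⟨a, b, -, rfl⟩ := IsFractionRing.div_surjective (A := A) z
  exact div_mem (key a) (key b)

theorem trdeg_frac' (A M : Type) [CommRing A] [IsDomain A] [Field M] [CharZero M] [Algebra A M]
    [IsFractionRing A M] : Algebra.trdeg ℚ M = Algebra.trdeg ℤ A := by
  have hinj : FaithfulSMul A M := inferInstance
  have h0 : (algebraMap A M).comp (algebraMap ℤ A) = algebraMap ℤ M := RingHom.ext_int _ _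
  have hT : IsScalarTower ℤ A M := IsScalarTower.of_algebraMap_eq fun x =>
      (RingHom.congr_fun h0 x).symm
  have hZ : FaithfulSMul ℤ A := by
    rw [faithfulSMul_iff_algebraMap_injective]
    intro a b hab
    apply (faithfulSMul_iff_algebraMap_injective ℤ M).1 inferInstance
    rw [← h0, RingHom.comp_apply, RingHom.comp_apply, hab]
  have h1 := trdeg_add_eq ℤ A (A := M)
  have h2 : Algebra.IsAlgebraic A M :=
    IsLocalization.isAlgebraic M (nonZeroDivisors A)
  have h4 : Algebra.trdeg A M = 0 := trdeg_eq_zero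
  have h3 := trdeg_add_eq ℤ ℚ (A := M)
  have h5 : Algebra.IsAlgebraic ℤ ℚ := IsLocalization.isAlgebraic ℚ (nonZeroDivisors ℤ)
  have h6 : Algebra.trdeg ℤ ℚ = 0 := trdeg_eq_zero
  rw [h4, add_zero] at h1
  rw [h6, zero_add] at h3
  rw [h3, ← h1]

theorem trdeg_frac (A : Type) [CommRing A] [IsDomain A] [CharZero A] :
    Algebra.trdeg ℚ (FractionRing A) = Algebra.trdeg ℤ A := trdeg_frac' A (FractionRing A)

theorem t_LANDAU : S_LANDAU := by
  intro A _ _ _ _
  have h1 : Algebra.trdeg ℤ A < Cardinal.aleph0 := trdeg_lt_aleph0_of_finiteType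
  obtain ⟨d, hd⟩ := Cardinal.lt_aleph0.1 h1
  have h2 : Algebra.trdeg ℚ (FractionRing A) = d := by rw [trdeg_frac, hd]
  obtain ⟨L, iL, nL, hj, hL⟩ := landau2 d (FractionRing A) (fg_of_ft2 (A := A)) h2
  exact ⟨L, iL, nL, d, h2, hj, hL A⟩

end Pool.Agent.T2h48.LZ
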