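import Pool.Agent.T2h48.LZ.Stm

set_option autoImplicit false
set_option linter.all false

namespace Pool.Agent.T2h48.LZ

theorem add_arith {a b h1 h2 C1 C2 s x y : ℝ} (hx : 0 ≤ x) (hy : 0 ≤ y) (hs : 0 ≤ s)
    (h1b : |a - h1 * x| * s ≤ C1 * x) (h2b : |b - h2 * y| * s ≤ C2 * y) :
    |a + b - (h1 * x + h2 * y)| * s ≤ C1 * x + C2 * y := by
  have e : a + b - (h1 * x + h2 * y) = (a - h1 * x) + (b - h2 * y) := by ring
  rw [e]
  have h3 := mul_le_mul_of_nonneg_right (abs_add_le (a - h1 * x) (b - h2 * y)) hs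
  rw [add_mul] at h3
  linarith

/-- different degrees -/
theorem add_lt {a b h1 h2 C1 C2 q s : ℝ} {d1 d2 : ℕ} (hd : d2 < d1) (hq : 1 ≤ q) (hs1 : 1 ≤ s)
    (hsq : s ^ 2 = q) (hh : 0 ≤ h2) (hhC : h2 ≤ C2)
    (h1b : |a - h1 * q ^ d1| * s ≤ C1 * q ^ d1) (h2b : |b - h2 * q ^ d2| * s ≤ C2 * q ^ d2) :
    |a + b - h1 * q ^ d1| * s ≤ (C1 + 2 * C2) * q ^ d1 := by
  have hq0 : 0 < q := by linarith
  have hC2 : 0 ≤ C2 := hh.trans hhC
  have e : a + b - h1 * q ^ d1 = (a - h1 * q ^ d1) + (b - h2 * q ^ d2) + h2 * q ^ d2 := by ring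
  have hp2 : 0 ≤ q ^ d2 := by positivity
  have h3 : |a + b - h1 * q ^ d1| ≤ |a - h1 * q ^ d1| + |b - h2 * q ^ d2| + h2 * q ^ d2 := by
    rw [e]
    refine (abs_add_le _ _).trans ?_
    rw [abs_of_nonneg (mul_nonneg hh hp2)]
    have := abs_add_le (a - h1 * q ^ d1) (b - h2 * q ^ d2)
    linarith
  have h4 : q ^ d2 * q ≤ q ^ d1 := by
    rw [← pow_succ]
    exact pow_le_pow_right₀ hq hd
  have h5 : q ^ d2 ≤ q ^ d1 := pow_le_pow_right₀ hq hd.le
  have h6 : q ^ d2 * s ≤ q ^ d1 := by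
    refine le_trans ?_ h4
    refine mul_le_mul_of_nonneg_left ?_ hp2
    nlinarith
  have hs0 : 0 ≤ s := by linarith
  have h7 := mul_le_mul_of_nonneg_right h3 hs0
  rw [add_mul, add_mul] at h7
  have h8 : h2 * q ^ d2 * s ≤ C2 * q ^ d1 := by
    rw [mul_assoc]
    exact mul_le_mul hhC h6 (mul_nonneg hp2 hs0) hC2
  have h9 : C2 * q ^ d2 ≤ C2 * q ^ d1 := mul_le_mul_of_nonneg_left h5 hC2
  nlinarith

theorem t_ADD : S_ADD := by
  rintro ν μ ⟨C1, N1, hN1, g1⟩ ⟨C2, N2, hN2, g2⟩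
  refine ⟨2 * C1 + 2 * C2 , N1 * N2, mul_ne_zero hN1 hN2, ?_⟩
  intro k _ _ hk
  have hk1 : ((N1 : ℕ) : k) ≠ 0 := by
    intro h
    apply hk
    rw [Nat.cast_mul, h, zero_mul]
  have hk2 : ((N2 : ℕ) : k) ≠ 0 := by
    intro h
    apply hk
    rw [Nat.cast_mul, h, mul_zero]
  obtain ⟨h1, d1, hh1, hd1, hz1, b1⟩ := g1 k hk1
  obtain ⟨h2, d2, hh2, hd2, hz2, b2⟩ := g2 k hk2
  have hq : (1 : ℝ) ≤ Nat.card k := by
    have : 0 < Nat.card k := Nat.card_pos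
    exact_mod_cast this
  have hq0 : (0 : ℝ) ≤ Nat.card k := by linarith
  have hs : (0 : ℝ) ≤ √(Nat.card k : ℝ) := Real.sqrt_nonneg _
  have hs1 : (1 : ℝ) ≤ √(Nat.card k : ℝ) := by
    rw [Real.one_le_sqrt]
    exact hq
  have hsq : √(Nat.card k : ℝ) ^ 2 = (Nat.card k : ℝ) := Real.sq_sqrt hq0
  have hc1 : (0 : ℝ) ≤ C1 := Nat.cast_nonneg _
  have hc2 : (0 : ℝ) ≤ C2 := Nat.cast_nonneg _
  show ∃ h d : ℕ, h ≤ 2 * C1 + 2 * C2 ∧ d ≤ 2 * C1 + 2 * C2 ∧ (h = 0 → ν k + μ k = 0) ∧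
      |((ν k + μ k : ℕ) : ℝ) - h * (Nat.card k : ℝ) ^ d| * √(Nat.card k : ℝ) ≤
        ((2 * C1 + 2 * C2 : ℕ) : ℝ) * (Nat.card k : ℝ) ^ d
  rcases Nat.eq_zero_or_pos h1 with h10 | h1p
  · refine ⟨h2, d2, by omega, by omega, ?_, ?_⟩
    · intro h
      rw [hz1 h10, hz2 h]
    · rw [hz1 h10, zero_add]
      refine b2.trans (mul_le_mul_of_nonneg_right ?_ (by positivity))
      push_cast
      linarith
  rcases Nat.eq_zero_or_pos h2 with h20 | h2p
  · refine ⟨h1, d1, by omega, by omega, ?_, ?_⟩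
    · intro h
      omega
    · rw [hz2 h20, add_zero]
      refine b1.trans (mul_le_mul_of_nonneg_right ?_ (by positivity))
      push_cast
      linarith
  have hh1' : (h1 : ℝ) ≤ C1 := by exact_mod_cast hh1
  have hh2' : (h2 : ℝ) ≤ C2 := by exact_mod_cast hh2
  rcases lt_trichotomy d1 d2 with hd | hd | hd
  · refine ⟨h2, d2, by omega, by omega, fun h => by omega, ?_⟩
    have h3 := add_lt hd hq hs1 hsq (Nat.cast_nonneg h1) hh1' b2 b1
    push_cast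
    rw [add_comm (ν k : ℝ)]
    refine h3.trans (mul_le_mul_of_nonneg_right ?_ (by positivity))
    linarith
  · subst hd
    refine ⟨h1 + h2, d1, by omega, by omega, fun h => by omega, ?_⟩
    have h3 := add_arith (by positivity) (by positivity) hs b1 b2
    push_cast
    rw [← add_mul] at h3
    refine h3.trans ?_
    rw [← add_mul]
    refine mul_le_mul_of_nonneg_right ?_ (by positivity)
    linarith
  · refine ⟨h1, d1, by omega, by omega, fun h => by omega, ?_⟩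
    have h3 := add_lt hd hq hs1 hsq (Nat.cast_nonneg h2) hh2' b1 b2
    push_cast
    refine h3.trans (mul_le_mul_of_nonneg_right ?_ (by positivity))
    linarith

end Pool.Agent.T2h48.LZ
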