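import Pool.Agent.T2h48.LZ.Stm2

set_option autoImplicit false

namespace Pool.Agent.T2h48.LZ

open MvPolynomial

section
variable {σ : Type}

/-- a linear form applied to the coefficients -/
noncomputable def Rr (ρ : ℂ →ₗ[ℚ] ℚ) (g : MvPolynomial σ ℂ) : MvPolynomial σ ℚ :=
  ∑ m ∈ g.support, monomial m (ρ (g.coeff m))

theorem coeff_Rr (ρ : ℂ →ₗ[ℚ] ℚ) (g : MvPolynomial σ ℂ) (m : σ →₀ ℕ) :
    (Rr ρ g).coeff m = ρ (g.coeff m) := by
  classical
  unfold Rr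
  rw [coeff_sum]
  simp only [coeff_monomial]
  rw [Finset.sum_ite_eq']
  split_ifs with h
  · rfl
  · rw [notMem_support_iff.1 h, map_zero]

theorem Rr_add (ρ : ℂ →ₗ[ℚ] ℚ) (g h : MvPolynomial σ ℂ) : Rr ρ (g + h) = Rr ρ g + Rr ρ h := by
  ext m
  rw [coeff_Rr, coeff_add, coeff_add, coeff_Rr, coeff_Rr, map_add]

theorem Rr_zero (ρ : ℂ →ₗ[ℚ] ℚ) : Rr ρ (0 : MvPolynomial σ ℂ) = 0 := by
  ext m
  rw [coeff_Rr, coeff_zero, coeff_zero, map_zero]

/-- the linear form `z ↦ ρ (c z)` -/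
noncomputable def rmul (ρ : ℂ →ₗ[ℚ] ℚ) (c : ℂ) : ℂ →ₗ[ℚ] ℚ := ρ ∘ₗ LinearMap.mulLeft ℚ c

theorem rmul_apply (ρ : ℂ →ₗ[ℚ] ℚ) (c z : ℂ) : rmul ρ c z = ρ (c * z) := rfl

theorem Rr_mul (ρ : ℂ →ₗ[ℚ] ℚ) (m : σ →₀ ℕ) (c : ℂ) (g : MvPolynomial σ ℂ) :
    Rr ρ (monomial m c * g) = monomial m 1 * Rr (rmul ρ c) g := by
  classical
  ext k
  rw [coeff_Rr, coeff_monomial_mul', coeff_monomial_mul']
  split_ifs with h
  · rw [coeff_Rr, one_mul, rmul_apply]
  · rw [map_zero]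

theorem Rr_int (ρ : ℂ →ₗ[ℚ] ℚ) (p : MvPolynomial σ ℤ) :
    Rr ρ (map (Int.castRingHom ℂ) p) = C (ρ 1) * map (Int.castRingHom ℚ) p := by
  ext k
  rw [coeff_Rr, coeff_C_mul, coeff_map, coeff_map]
  simp only [eq_intCast]
  have e : ((coeff k p : ℤ) : ℂ) = ((coeff k p : ℤ) : ℚ) • (1 : ℂ) := by
    rw [Algebra.smul_def, mul_one]
    simp
  rw [e, map_smul, smul_eq_mul, mul_comm]

/-- the ideals generated over `ℂ` and over `ℚ` -/
theorem Rr_mem (P : Ideal (MvPolynomial σ ℤ)) (g : MvPolynomial σ ℂ)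
    (hg : g ∈ P.map (map (Int.castRingHom ℂ))) :
    ∀ ρ : ℂ →ₗ[ℚ] ℚ, Rr ρ g ∈ P.map (map (Int.castRingHom ℚ)) := by
  rw [Ideal.map, ← Ideal.submodule_span_eq] at hg
  induction hg using Submodule.span_induction with
  | mem x hx =>
    intro ρ
    obtain ⟨p, hp, rfl⟩ := hx
    rw [Rr_int]
    exact Ideal.mul_mem_left _ _ (Ideal.mem_map_of_mem _ hp)
  | zero => intro ρ; rw [Rr_zero]; exact Ideal.zero_mem _
  | add x y _ _ hx hy => intro ρ; rw [Rr_add]; exact Ideal.add_mem _ (hx ρ) (hy ρ)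
  | smul a x hx ih =>
    induction a using MvPolynomial.induction_on' with
    | monomial m c =>
      intro ρ
      rw [smul_eq_mul, Rr_mul]
      exact Ideal.mul_mem_left _ _ (ih _)
    | add a b ha hb =>
      intro ρ
      rw [add_smul, Rr_add]
      exact Ideal.add_mem _ (ha ρ) (hb ρ)

end

theorem t_GEOM : S_GEOM := by
  intro n P hP hPC M _ _ _ _ x hx
  have hdom : IsDomain (MvPolynomial (Fin n) ℤ ⧸ P) := Ideal.Quotient.isDomain P
  set PC := P.map (map (Int.castRingHom ℂ)) with hPCdef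
  have hdomC : IsDomain (MvPolynomial (Fin n) ℂ ⧸ PC) := Ideal.Quotient.isDomain PC
  let ι := algebraMap (MvPolynomial (Fin n) ℤ ⧸ P) M
  have hι : Function.Injective ι := IsFractionRing.injective _ M
  -- the linear form
  obtain ⟨ρ, hρ⟩ : ∃ ρ : ℂ →ₗ[ℚ] ℚ, ρ 1 = 1 := by
    obtain ⟨ρ, hρ⟩ := LinearMap.exists_leftInverse_of_injective (Algebra.linearMap ℚ ℂ)
      (LinearMap.ker_eq_bot.2 (algebraMap ℚ ℂ).injective)
    refine ⟨ρ, ?_⟩
    have h1 := LinearMap.congr_fun hρ 1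
    simpa using h1
  -- evaluation over `ℚ`
  let θ : MvPolynomial (Fin n) ℚ →+* M :=
    eval₂Hom (algebraMap ℚ M) (fun i => ι (Ideal.Quotient.mk P (X i)))
  have hθ : ∀ f : MvPolynomial (Fin n) ℤ, θ (map (Int.castRingHom ℚ) f) = ι (Ideal.Quotient.mk P f) := by
    intro f
    have h1 : θ.comp (map (Int.castRingHom ℚ)) = ι.comp (Ideal.Quotient.mk P) := by
      apply MvPolynomial.ringHom_ext
      · intro r
        simp [θ]
      · intro i
        simp [θ]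
    exact RingHom.congr_fun h1 f
  have hθP : ∀ g ∈ P.map (map (Int.castRingHom ℚ)), θ g = 0 := by
    intro g hg
    have h1 : P.map (map (Int.castRingHom ℚ)) ≤ RingHom.ker θ := by
      rw [Ideal.map_le_iff_le_comap]
      intro p hp
      rw [Ideal.mem_comap, RingHom.mem_ker, hθ, Ideal.Quotient.eq_zero_iff_mem.2 hp, map_zero]
    exact h1 hg
  have hinj0 : ∀ f : MvPolynomial (Fin n) ℤ, map (Int.castRingHom ℂ) f ∈ PC →
      Ideal.Quotient.mk P f = 0 := by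
    intro f hf
    have h1 := hθP _ (Rr_mem P _ hf ρ)
    rw [Rr_int, hρ, C_1, one_mul, hθ] at h1
    exact hι (by rw [h1, map_zero])
  -- the homomorphism to the ring over `ℂ`
  let j : MvPolynomial (Fin n) ℤ ⧸ P →+* MvPolynomial (Fin n) ℂ ⧸ PC :=
    Ideal.Quotient.lift P ((Ideal.Quotient.mk PC).comp (map (Int.castRingHom ℂ))) (by
      intro p hp
      rw [RingHom.comp_apply, Ideal.Quotient.eq_zero_iff_mem]
      exact Ideal.mem_map_of_mem _ hp)
  have hj : ∀ f, j (Ideal.Quotient.mk P f) = Ideal.Quotient.mk PC (map (Int.castRingHom ℂ) f) :=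
    fun f => rfl
  have hjinj : Function.Injective j := by
    rw [injective_iff_map_eq_zero]
    intro a ha
    obtain ⟨f, rfl⟩ := Ideal.Quotient.mk_surjective a
    rw [hj, Ideal.Quotient.eq_zero_iff_mem] at ha
    exact hinj0 f ha
  let E := FractionRing (MvPolynomial (Fin n) ℂ ⧸ PC)
  let κ := algebraMap (MvPolynomial (Fin n) ℂ ⧸ PC) E
  have hκ : Function.Injective κ := IsFractionRing.injective _ E
  let ψ : M →+* E := IsFractionRing.lift (A := MvPolynomial (Fin n) ℤ ⧸ P) (K := M)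
    (g := κ.comp j) (hκ.comp hjinj)
  have hψ : ∀ a, ψ (ι a) = κ (j a) := fun a => IsFractionRing.lift_algebraMap _ a
  -- the complex numbers in `E`
  let γ : ℂ →+* E := κ.comp ((Ideal.Quotient.mk PC).comp C)
  obtain ⟨α, hα⟩ : ∃ α : ℂ, γ α = ψ x := by
    let _ : Algebra ℂ E := γ.toAlgebra
    have h1 : IsAlgebraic ℂ (ψ x) := by
      obtain ⟨p, hp0, hp⟩ := hx
      refine ⟨p.map (algebraMap ℚ ℂ), (Polynomial.map_ne_zero_iff (algebraMap ℚ ℂ).injective).2 hp0, ?_⟩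
      rw [Polynomial.aeval_def, Polynomial.eval₂_map]
      have h2 : (algebraMap ℂ E).comp (algebraMap ℚ ℂ) = ψ.comp (algebraMap ℚ M) := RingHom.ext_rat _ _
      rw [h2, ← Polynomial.hom_eval₂, ← Polynomial.aeval_def, hp, map_zero]
    have h3 := IsAlgClosed.degree_eq_one_of_irreducible ℂ (minpoly.irreducible h1.isIntegral)
    obtain ⟨α, hα⟩ := minpoly.mem_range_of_degree_eq_one ℂ (ψ x) h3
    exact ⟨α, hα⟩
  obtain ⟨u, w, hw, hux⟩ := IsFractionRing.div_surjective (A := MvPolynomial (Fin n) ℤ ⧸ P) x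
  have hw0 : ι w ≠ 0 := (map_ne_zero_iff _ hι).2 (nonZeroDivisors.ne_zero hw)
  obtain ⟨U, rfl⟩ := Ideal.Quotient.mk_surjective u
  obtain ⟨W, rfl⟩ := Ideal.Quotient.mk_surjective w
  have hmem : map (Int.castRingHom ℂ) U - C α * map (Int.castRingHom ℂ) W ∈ PC := by
    rw [← Ideal.Quotient.eq_zero_iff_mem]
    apply hκ
    rw [map_zero, map_sub, map_sub, map_mul, map_mul, ← hj, ← hj, ← hψ, ← hψ, sub_eq_zero]
    have h4 : κ (Ideal.Quotient.mk PC (C α)) = ψ x := hα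
    rw [h4, ← hux, ← map_mul]
    congr 1
    exact (div_mul_cancel₀ _ hw0).symm
  have h5 := hθP _ (Rr_mem P _ hmem ρ)
  have h6 : Rr ρ (map (Int.castRingHom ℂ) U - C α * map (Int.castRingHom ℂ) W) =
      map (Int.castRingHom ℚ) U - C (ρ α) * map (Int.castRingHom ℚ) W := by
    have e1 : map (Int.castRingHom ℂ) U - C α * map (Int.castRingHom ℂ) W =
        map (Int.castRingHom ℂ) U + monomial 0 (-α) * map (Int.castRingHom ℂ) W := by
      rw [sub_eq_add_neg, ← neg_mul, ← C_neg]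
      rfl
    rw [e1, Rr_add, Rr_int, Rr_mul, Rr_int, hρ, rmul_apply, mul_one, map_neg]
    rw [show (monomial (0 : Fin n →₀ ℕ) (1 : ℚ)) = 1 from rfl, C_1, one_mul, one_mul, C_neg, neg_mul,
      sub_eq_add_neg]
  rw [h6, map_sub, map_mul, hθ, hθ, sub_eq_zero] at h5
  have h7 : θ (C (ρ α)) = algebraMap ℚ M (ρ α) := by simp [θ]
  refine ⟨ρ α, ?_⟩
  rw [← hux, ← h7]
  exact (eq_div_iff hw0).2 h5.symm

end Pool.Agent.T2h48.LZ
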