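import Pool.Agent.T2h48.LZ.T_RING

set_option autoImplicit false
set_option linter.all false
set_option maxHeartbeats 1000000

open NumberField

namespace Pool.Agent.T2h48.LZ

open Pool.Agent.R410.LW

theorem card_hom_int (L : Type) [Field L] [NumberField L]
    (h : ∀ x : L, x ∈ Set.range (algebraMap ℚ L)) (k : Type) [Field k] [Finite k] :
    Nat.card (𝓞 L →+* k) = 1 := by
  have hbij : Function.Bijective (Int.castRingHom (𝓞 L)) := by
    constructor
    · exact (Int.castRingHom (𝓞 L)).injective_int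
    · intro x
      obtain ⟨y, hy⟩ := h (x : L)
      have h1 : IsIntegral ℤ (algebraMap ℚ L y) := by
        rw [hy]
        exact x.2
      have h2 : IsIntegral ℤ y := (isIntegral_algebraMap_iff (algebraMap ℚ L).injective).1 h1
      obtain ⟨n, hn⟩ := IsIntegrallyClosed.isIntegral_iff.1 h2
      refine ⟨n, ?_⟩
      apply RingOfIntegers.ext
      rw [← hy, ← hn]
      simp
  let e := RingEquiv.ofBijective _ hbij
  have h1 : Nat.card (𝓞 L →+* k) = Nat.card (ℤ →+* k) := by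
    refine Nat.card_congr
      { toFun := fun φ => φ.comp (e : ℤ →+* 𝓞 L)
        invFun := fun φ => φ.comp (e.symm : 𝓞 L →+* ℤ)
        left_inv := ?_
        right_inv := ?_ }
    · intro φ
      refine RingHom.ext fun x => ?_
      show φ (e (e.symm x)) = φ x
      rw [e.apply_symm_apply]
    · intro φ
      exact Subsingleton.elim _ _
  rw [h1]
  have : Nonempty (ℤ →+* k) := ⟨Int.castRingHom k⟩
  exact Nat.card_eq_one_iff_unique.2 ⟨inferInstance, this⟩

theorem t_IRR (hL : S_LANDAU) (hD : S_DROP) : S_IRR := by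
  intro A _ _ _ _ hcl
  obtain ⟨L, iL, nL, d, hd, ⟨j⟩, hLan⟩ := hL A
  refine ⟨d, hd, ?_⟩
  obtain ⟨s, hs0, hs⟩ := hLan
  have hLQ : ∀ x : L, x ∈ Set.range (algebraMap ℚ L) := by
    intro x
    have h1 : IsAlgebraic ℚ (j x) := by
      have h2 : IsAlgebraic ℚ x := Algebra.IsAlgebraic.isAlgebraic x
      obtain ⟨p, hp0, hp⟩ := h2
      refine ⟨p, hp0, ?_⟩
      have h3 : j.comp (algebraMap ℚ L) = algebraMap ℚ (FractionRing A) := RingHom.ext_rat _ _
      rw [Polynomial.aeval_def, ← h3, ← Polynomial.hom_eval₂, ← Polynomial.aeval_def, hp, map_zero]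
    obtain ⟨y, hy⟩ := hcl _ h1
    refine ⟨y, j.injective ?_⟩
    have h3 : j.comp (algebraMap ℚ L) = algebraMap ℚ (FractionRing A) := RingHom.ext_rat _ _
    rw [← hy, ← h3]
    rfl
  obtain ⟨C, N, hC, hN, h1⟩ := hs s hs0 (dvd_refl s)
  obtain ⟨C', N', hN', h2⟩ := hD A d hd s hs0
  refine ⟨C + C', N * N', by positivity, mul_ne_zero hN hN', ?_⟩
  intro k _ _ hk
  have hk1 : ((N : ℕ) : k) ≠ 0 := by
    intro h
    apply hk
    rw [Nat.cast_mul, h, zero_mul]
  have hk2 : ((N' : ℕ) : k) ≠ 0 := by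
    intro h
    apply hk
    rw [Nat.cast_mul, h, mul_zero]
  have g1 := h1 k hk1
  have g2 := h2 k hk2
  rw [card_hom_int L hLQ k, Nat.cast_one, one_mul] at g1
  have hfin : Finite (A →+* k) := hom_finite A k
  have e1 : Nat.card (A →+* k) = Nat.card {φ : A →+* k // φ s ≠ 0} +
      Nat.card {φ : A →+* k // φ s = 0} := by
    have h3 := card_split (α := A →+* k) (fun _ => True) (fun φ => φ s ≠ 0) (fun φ => φ s = 0)
      (fun φ => by tauto) (fun φ => by tauto)
    rw [← h3]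
    exact (Nat.card_congr (Equiv.subtypeUnivEquiv fun _ => trivial)).symm
  rw [e1]
  push_cast
  have hq : (1 : ℝ) ≤ Nat.card k := by
    have : 0 < Nat.card k := Nat.card_pos
    exact_mod_cast this
  have hq0 : (0 : ℝ) ≤ Nat.card k := by linarith
  have hs' : (0 : ℝ) ≤ √(Nat.card k : ℝ) := Real.sqrt_nonneg _
  have hs1 : (1 : ℝ) ≤ √(Nat.card k : ℝ) := by
    rw [Real.one_le_sqrt]
    exact hq
  have hsq : √(Nat.card k : ℝ) ^ 2 = (Nat.card k : ℝ) := Real.sq_sqrt hq0
  have hsle : √(Nat.card k : ℝ) ≤ Nat.card k := by nlinarith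
  have g3 : (Nat.card {φ : A →+* k // φ s = 0} : ℝ) * Nat.card k ≤ C' * (Nat.card k : ℝ) ^ d := by
    exact_mod_cast g2
  have g4 : (Nat.card {φ : A →+* k // φ s = 0} : ℝ) * √(Nat.card k : ℝ) ≤ C' * (Nat.card k : ℝ) ^ d :=
    le_trans (mul_le_mul_of_nonneg_left hsle (Nat.cast_nonneg _)) g3
  have e2 : (Nat.card {φ : A →+* k // φ s ≠ 0} : ℝ) + Nat.card {φ : A →+* k // φ s = 0} -
      (Nat.card k : ℝ) ^ d = ((Nat.card {φ : A →+* k // φ s ≠ 0} : ℝ) - (Nat.card k : ℝ) ^ d) +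
        Nat.card {φ : A →+* k // φ s = 0} := by ring
  rw [e2]
  have h5 := abs_add_le ((Nat.card {φ : A →+* k // φ s ≠ 0} : ℝ) - (Nat.card k : ℝ) ^ d)
    (Nat.card {φ : A →+* k // φ s = 0} : ℝ)
  have h50 : |(Nat.card {φ : A →+* k // φ s = 0} : ℝ)| = Nat.card {φ : A →+* k // φ s = 0} :=
    abs_of_nonneg (Nat.cast_nonneg _)
  rw [h50] at h5
  have h6 := mul_le_mul_of_nonneg_right h5 hs'
  rw [add_mul] at h6
  rw [add_mul]
  linarith

end Pool.Agent.T2h48.LZ
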