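import Pool.Agent.T2h48.LZ.Poly2
import Pool.Agent.T2h48.LZ.T_IRR
import Pool.Agent.T2h48.LZ.T_DROP
import Pool.Agent.T2h48.LZ.T_GEOM

set_option autoImplicit false
set_option maxHeartbeats 1000000

namespace Pool.Agent.T2h48.LZ

open Pool.Agent.T2h48.DW
open MvPolynomial

/-- The constructible set `X` is geometrically irreducible: there is a prime ideal `P` of `ℤ[x]` that
generates a prime ideal of `ℂ[x]` (a geometrically irreducible affine variety), such that, over the finite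
fields of large characteristic, `X` is contained in the zero set of `P` and contains its points outside of a
hypersurface `s = 0`, `s ∉ P`. -/
def GeomIrr {a : ℕ} (X : QF ℤ a) : Prop :=
  ∃ P : Ideal (MvPolynomial (Fin a) ℤ), P.IsPrime ∧ (P.map (map (Int.castRingHom ℂ))).IsPrime ∧
    ∃ s : MvPolynomial (Fin a) ℤ, s ∉ P ∧ ∃ N : ℕ, ∀ (F : Type) [Field F] [Finite F], N < ringChar F →
      ∀ x : Fin a → F, (X.Holds x → ∀ f ∈ P, aeval x f = 0) ∧
        ((∀ f ∈ P, aeval x f = 0) → aeval x s ≠ 0 → X.Holds x)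

/-- homomorphisms of `ℤ[x] / P` to `k` -/
theorem exists_pts {n : ℕ} (P : Ideal (MvPolynomial (Fin n) ℤ)) (k : Type) [Field k] :
    ∃ e : (MvPolynomial (Fin n) ℤ ⧸ P →+* k) ≃ {x : Fin n → k // ∀ f ∈ P, aeval x f = 0},
      ∀ φ f, aeval (e φ).1 f = φ (Ideal.Quotient.mk P f) := by
  have e : ∀ (φ : MvPolynomial (Fin n) ℤ ⧸ P →+* k) (f : MvPolynomial (Fin n) ℤ),
      aeval (fun i => φ (Ideal.Quotient.mk P (X i))) f = φ (Ideal.Quotient.mk P f) := by
    intro φ f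
    have h : ((aeval (fun i => φ (Ideal.Quotient.mk P (X i))) : MvPolynomial (Fin n) ℤ →ₐ[ℤ] k) :
        MvPolynomial (Fin n) ℤ →+* k) = φ.comp (Ideal.Quotient.mk P) := by
      apply MvPolynomial.ringHom_ext
      · intro r
        rw [RingHom.coe_coe, ← algebraMap_eq, AlgHom.commutes]
        exact (RingHom.congr_fun (RingHom.ext_int (algebraMap ℤ k)
          ((φ.comp (Ideal.Quotient.mk P)).comp (algebraMap ℤ (MvPolynomial (Fin n) ℤ)))) r)
      · intro i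
        exact aeval_X _ i
    exact RingHom.congr_fun h f
  let F : (MvPolynomial (Fin n) ℤ ⧸ P →+* k) → {x : Fin n → k // ∀ f ∈ P, aeval x f = 0} := fun φ =>
    ⟨fun i => φ (Ideal.Quotient.mk P (X i)), fun f hf => by
      rw [e, Ideal.Quotient.eq_zero_iff_mem.2 hf, map_zero]⟩
  let G : {x : Fin n → k // ∀ f ∈ P, aeval x f = 0} → (MvPolynomial (Fin n) ℤ ⧸ P →+* k) := fun x =>
    Ideal.Quotient.lift P ((aeval x.1 : MvPolynomial (Fin n) ℤ →ₐ[ℤ] k) :
      MvPolynomial (Fin n) ℤ →+* k) x.2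
  refine ⟨⟨F, G, ?_, ?_⟩, e⟩
  · intro φ
    exact Ideal.Quotient.ringHom_ext (RingHom.ext fun f => e φ f)
  · intro x
    apply Subtype.ext
    funext i
    exact aeval_X x.1 i

theorem ft_quot {n : ℕ} (P : Ideal (MvPolynomial (Fin n) ℤ)) :
    @Algebra.FiniteType ℤ (MvPolynomial (Fin n) ℤ ⧸ P) _ _ (Ring.toIntAlgebra _) := by
  have h : Algebra.FiniteType ℤ (MvPolynomial (Fin n) ℤ) := inferInstance
  have e : (Ideal.Quotient.mk P).comp (@algebraMap ℤ (MvPolynomial (Fin n) ℤ) _ _ AddMonoidAlgebra.algebra) =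
      @algebraMap ℤ (MvPolynomial (Fin n) ℤ ⧸ P) _ _ (Ring.toIntAlgebra _) := RingHom.ext_int _ _
  let f : @AlgHom ℤ (MvPolynomial (Fin n) ℤ) (MvPolynomial (Fin n) ℤ ⧸ P) _ _ _
      AddMonoidAlgebra.algebra (Ring.toIntAlgebra _) :=
    @AlgHom.mk ℤ (MvPolynomial (Fin n) ℤ) (MvPolynomial (Fin n) ℤ ⧸ P) _ _ _ AddMonoidAlgebra.algebra
      (Ring.toIntAlgebra _) (Ideal.Quotient.mk P) (fun r => RingHom.congr_fun e r)
  exact @Algebra.FiniteType.of_surjective ℤ (MvPolynomial (Fin n) ℤ) (MvPolynomial (Fin n) ℤ ⧸ P) _ _ _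
    AddMonoidAlgebra.algebra (Ring.toIntAlgebra _) h f Ideal.Quotient.mk_surjective

theorem charZero_quot {n : ℕ} (P : Ideal (MvPolynomial (Fin n) ℤ))
    (hPC : (P.map (map (Int.castRingHom ℂ))).IsPrime) : CharZero (MvPolynomial (Fin n) ℤ ⧸ P) := by
  refine charZero_of_inj_zero ?_
  intro m hm
  by_contra h0
  have h1 : ((m : ℕ) : MvPolynomial (Fin n) ℤ) ∈ P := by
    rw [← Ideal.Quotient.eq_zero_iff_mem, map_natCast]
    exact hm
  have h2 := Ideal.mem_map_of_mem (map (Int.castRingHom ℂ)) h1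
  rw [map_natCast] at h2
  apply hPC.ne_top
  rw [Ideal.eq_top_iff_one]
  have h3 := Ideal.mul_mem_left (P.map (map (Int.castRingHom ℂ))) (C ((m : ℂ)⁻¹)) h2
  have h4 : (C ((m : ℂ)⁻¹) * ((m : ℕ) : MvPolynomial (Fin n) ℂ)) = 1 := by
    rw [← map_natCast (C : ℂ →+* MvPolynomial (Fin n) ℂ), ← C_mul,
      inv_mul_cancel₀ (by exact_mod_cast h0), C_1]
  rwa [h4] at h3

/-- the number of the points of a geometrically irreducible constructible set -/
theorem irr_count {a : ℕ} (X : QF ℤ a) (hX : GeomIrr X) :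
    ∃ C N d : ℕ, ∀ (F : Type) [Field F] [Finite F], N < ringChar F →
      |(Nat.card {x : Fin a → F // X.Holds x} : ℝ) - (Nat.card F : ℝ) ^ d| * √(Nat.card F : ℝ) ≤
        C * (Nat.card F : ℝ) ^ d := by
  obtain ⟨P, hP, hPC, s, hs, N₀, hN₀⟩ := hX
  have hdom : IsDomain (MvPolynomial (Fin a) ℤ ⧸ P) := Ideal.Quotient.isDomain P
  have hcz := charZero_quot P hPC
  have hft := ft_quot P
  obtain ⟨d, hd, C, N, hC, hN, h1⟩ := @t_IRR t_LANDAU t_DROP (MvPolynomial (Fin a) ℤ ⧸ P) _ _ _ hft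
    (fun x hx => t_GEOM a P hP hPC _ x hx)
  have hs0 : Ideal.Quotient.mk P s ≠ 0 := by
    rw [ne_eq, Ideal.Quotient.eq_zero_iff_mem]
    exact hs
  obtain ⟨C', N', hN', h2⟩ := @t_DROP (MvPolynomial (Fin a) ℤ ⧸ P) _ _ _ hft d hd _ hs0
  refine ⟨⌈C⌉₊ + C', N₀ + N + N', d, fun F _ _ hF => ?_⟩
  have g1 := h1 F (cast_ne_zero_of_lt F N hN (by omega))
  have g2 := h2 F (cast_ne_zero_of_lt F N' hN' (by omega))
  obtain ⟨e, he⟩ := exists_pts P F
  have hfin : Finite (MvPolynomial (Fin a) ℤ ⧸ P →+* F) := Finite.of_equiv _ e.symm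
  have e1 : Nat.card (MvPolynomial (Fin a) ℤ ⧸ P →+* F) =
      Set.ncard {x : Fin a → F | ∀ f ∈ P, aeval x f = 0} := Nat.card_congr e
  have e2 : Nat.card {φ : MvPolynomial (Fin a) ℤ ⧸ P →+* F // φ (Ideal.Quotient.mk P s) = 0} =
      Set.ncard {x : Fin a → F | (∀ f ∈ P, aeval x f = 0) ∧ aeval x s = 0} := by
    have h3 : Nat.card {φ : MvPolynomial (Fin a) ℤ ⧸ P →+* F // φ (Ideal.Quotient.mk P s) = 0} =
        Nat.card {x : {x : Fin a → F // ∀ f ∈ P, aeval x f = 0} // aeval x.1 s = 0} := by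
      refine Nat.card_congr (e.subtypeEquiv fun φ => ?_)
      rw [he]
    rw [h3]
    exact Nat.card_congr (Equiv.subtypeSubtypeEquivSubtypeInter
      (fun x : Fin a → F => ∀ f ∈ P, aeval x f = 0) (fun x => aeval x s = 0))
  rw [e1] at g1
  rw [e2] at g2
  have e3 : Nat.card {x : Fin a → F // X.Holds x} = Set.ncard {x : Fin a → F | X.Holds x} := rfl
  rw [e3]
  have u1 : Set.ncard {x : Fin a → F | X.Holds x} ≤
      Set.ncard {x : Fin a → F | ∀ f ∈ P, aeval x f = 0} :=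
    Set.ncard_le_ncard fun x hx => (hN₀ F (by omega) x).1 hx
  have u2 : Set.ncard {x : Fin a → F | ∀ f ∈ P, aeval x f = 0} ≤
      Set.ncard {x : Fin a → F | X.Holds x} +
        Set.ncard {x : Fin a → F | (∀ f ∈ P, aeval x f = 0) ∧ aeval x s = 0} := by
    refine le_trans (Set.ncard_le_ncard ?_) (Set.ncard_union_le _ _)
    intro x hx
    by_cases h : aeval x s = 0
    · exact Or.inr ⟨hx, h⟩
    · exact Or.inl ((hN₀ F (by omega) x).2 hx h)
  have r1 : (Set.ncard {x : Fin a → F | X.Holds x} : ℝ) ≤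
      Set.ncard {x : Fin a → F | ∀ f ∈ P, aeval x f = 0} := by exact_mod_cast u1
  have r2 : (Set.ncard {x : Fin a → F | ∀ f ∈ P, aeval x f = 0} : ℝ) ≤
      Set.ncard {x : Fin a → F | X.Holds x} +
        Set.ncard {x : Fin a → F | (∀ f ∈ P, aeval x f = 0) ∧ aeval x s = 0} := by exact_mod_cast u2
  have hq : (1 : ℝ) ≤ Nat.card F := by
    have : 0 < Nat.card F := Nat.card_pos
    exact_mod_cast this
  have hs' : (0 : ℝ) ≤ √(Nat.card F : ℝ) := Real.sqrt_nonneg _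
  have hsle : √(Nat.card F : ℝ) ≤ Nat.card F := by
    rw [Real.sqrt_le_left (by linarith)]
    nlinarith
  have g3 : (Set.ncard {x : Fin a → F | (∀ f ∈ P, aeval x f = 0) ∧ aeval x s = 0} : ℝ) * Nat.card F ≤
      C' * (Nat.card F : ℝ) ^ d := by exact_mod_cast g2
  have g4 : (Set.ncard {x : Fin a → F | (∀ f ∈ P, aeval x f = 0) ∧ aeval x s = 0} : ℝ) *
      √(Nat.card F : ℝ) ≤ C' * (Nat.card F : ℝ) ^ d :=
    le_trans (mul_le_mul_of_nonneg_left hsle (Nat.cast_nonneg _)) g3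
  have k1 : |(Set.ncard {x : Fin a → F | X.Holds x} : ℝ) - (Nat.card F : ℝ) ^ d| ≤
      |(Set.ncard {x : Fin a → F | ∀ f ∈ P, aeval x f = 0} : ℝ) - (Nat.card F : ℝ) ^ d| +
        Set.ncard {x : Fin a → F | (∀ f ∈ P, aeval x f = 0) ∧ aeval x s = 0} := by
    have w1 := neg_abs_le ((Set.ncard {x : Fin a → F | ∀ f ∈ P, aeval x f = 0} : ℝ) -
      (Nat.card F : ℝ) ^ d)
    have w2 := le_abs_self ((Set.ncard {x : Fin a → F | ∀ f ∈ P, aeval x f = 0} : ℝ) -
      (Nat.card F : ℝ) ^ d)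
    have w3 : (0 : ℝ) ≤ Set.ncard {x : Fin a → F | (∀ f ∈ P, aeval x f = 0) ∧ aeval x s = 0} :=
      Nat.cast_nonneg _
    rw [abs_le]
    constructor
    · linarith
    · linarith
  have k2 := mul_le_mul_of_nonneg_right k1 hs'
  rw [add_mul] at k2
  have k3 : C ≤ ⌈C⌉₊ := Nat.le_ceil C
  have k4 : C * (Nat.card F : ℝ) ^ d ≤ ⌈C⌉₊ * (Nat.card F : ℝ) ^ d :=
    mul_le_mul_of_nonneg_right k3 (by positivity)
  push_cast
  rw [add_mul]
  linarith

/-- asymptotics for `X`, with `h = 1` if `X` is geometrically irreducible -/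
theorem asy_X {a : ℕ} (X : QF ℤ a) :
    ∃ C N : ℕ, ∀ (F : Type) [Field F] [Finite F], N < ringChar F →
      ∃ h d : ℕ, h ≤ C ∧ d ≤ C ∧ (h = 0 → Nat.card {x : Fin a → F // X.Holds x} = 0) ∧
        |(Nat.card {x : Fin a → F // X.Holds x} : ℝ) - h * (Nat.card F : ℝ) ^ d| *
          √(Nat.card F : ℝ) ≤ C * (Nat.card F : ℝ) ^ d ∧ (GeomIrr X → h = 1) := by
  by_cases hX : GeomIrr X
  · obtain ⟨C, N, d, hC⟩ := irr_count X hX
    refine ⟨C + d + 1, N, fun F _ _ hF => ⟨1, d, by omega, by omega, fun h => absurd h one_ne_zero, ?_,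
      fun _ => rfl⟩⟩
    rw [Nat.cast_one, one_mul]
    refine (hC F hF).trans (mul_le_mul_of_nonneg_right ?_ (by positivity))
    push_cast
    linarith [Nat.cast_nonneg (α := ℝ) d]
  · obtain ⟨C, N, hN, hC⟩ := form a X
    refine ⟨C, N, fun F _ _ hF => ?_⟩
    obtain ⟨h, d, h1, h2, h3, h4⟩ := hC F (cast_ne_zero_of_lt F N hN hF)
    exact ⟨h, d, h1, h2, h3, h4, fun h => absurd h hX⟩

theorem square_comp {a b : ℕ} (X : QF ℤ a) (B : QF ℤ b) (I : QF ℤ (a + b)) (L : ℕ) :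
    ∃ C : ℕ, ∀ (F : Type) [Field F] [Finite F], C < ringChar F → ∀ v k l : ℕ, 1 ≤ l → l ≤ L → C < v →
      Fam X B I F v k l → ∃ e h m : ℕ, 1 ≤ e ∧ e ≤ C ∧ 1 ≤ h ∧ h ≤ C ∧ l * h = m ^ 2 ∧
        |(v : ℝ) - h * (Nat.card F : ℝ) ^ (2 * e)| * √(Nat.card F : ℝ) ≤
          C * (Nat.card F : ℝ) ^ (2 * e) ∧ (GeomIrr X → h = 1) := by
  obtain ⟨C₁, N₁, h1⟩ := asy_X X
  obtain ⟨C₂, N₂, hN₂, h2⟩ := form _ (QF.flags X B I)
  obtain ⟨M, hM⟩ := num_all ((C₁ + C₂ : ℕ) : ℝ) L (C₁ + C₂)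
  refine ⟨2 * C₁ + C₂ + N₁ + N₂ + M + 2, ?_⟩
  intro F _ _ hF v k l hl hlL hv hdes
  obtain ⟨h, d, hhC, hdC, hz, hb, hirr⟩ := h1 F (by omega)
  obtain ⟨h', d', hh'C, hd'C, hz', hb'⟩ := h2 F (cast_ne_zero_of_lt F N₂ hN₂ (by omega))
  have hvX : Nat.card {x : Fin a → F // X.Holds x} = v := hdes.cardP
  rw [hvX] at hb hz
  obtain ⟨hfl, hk⟩ := hdes.count (by omega)
  simp only [hfl] at hb' hz'
  have hq := ringChar_le_card F
  have hqr : (1 : ℝ) ≤ Nat.card F := by exact_mod_cast (by omega : 1 ≤ Nat.card F)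
  have hs1 : (1 : ℝ) ≤ √(Nat.card F : ℝ) := by
    rw [Real.one_le_sqrt]
    exact hqr
  have hh : 1 ≤ h := by
    by_contra h0
    have := hz (by omega)
    omega
  have hd : 1 ≤ d := by
    by_contra h0
    have hd0 : d = 0 := by omega
    subst hd0
    rw [pow_zero, mul_one, mul_one] at hb
    have w1 : |(v : ℝ) - h| ≤ C₁ := le_trans (le_mul_of_one_le_right (abs_nonneg _) hs1) hb
    have w2 := (abs_le.1 w1).2
    have w3 : (v : ℝ) ≤ (h + C₁ : ℕ) := by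
      push_cast
      linarith
    have w4 : v ≤ h + C₁ := by exact_mod_cast w3
    omega
  have hh' : 1 ≤ h' := by
    by_contra h0
    have w1 := hz' (by omega)
    rcases Nat.mul_eq_zero.1 w1 with w2 | w2
    · omega
    · subst w2
      have w3 : (l : ℤ) * ((v : ℤ) - 1) = 0 := by rw [← hk]; simp
      rcases mul_eq_zero.1 w3 with w4 | w4
      · omega
      · omega
  have hP : ∀ n : ℕ, (0 : ℝ) ≤ (Nat.card F : ℝ) ^ n := fun n => by positivity
  obtain ⟨key1, key2⟩ := hM l h d h' d' hl hlL hh (by omega) hd (by omega) hh' (by omega) (by omega)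
    (Nat.card F) v k (v * k) (by omega) rfl hk
    (hb.trans (mul_le_mul_of_nonneg_right
      (by push_cast; linarith [Nat.cast_nonneg (α := ℝ) C₂]) (hP _)))
    (hb'.trans (mul_le_mul_of_nonneg_right
      (by push_cast; linarith [Nat.cast_nonneg (α := ℝ) C₁]) (hP _)))
  obtain ⟨m, -, hm⟩ := sq_of l h h' hh key2
  have hd2 : d = 2 * (d / 2) := by omega
  refine ⟨d / 2, h, m, by omega, by omega, hh, by omega, hm, ?_, hirr⟩
  rw [← hd2]
  refine hb.trans (mul_le_mul_of_nonneg_right ?_ (hP _))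
  push_cast
  linarith [Nat.cast_nonneg (α := ℝ) C₁, Nat.cast_nonneg (α := ℝ) C₂, Nat.cast_nonneg (α := ℝ) N₁,
    Nat.cast_nonneg (α := ℝ) N₂, Nat.cast_nonneg (α := ℝ) M]

end Pool.Agent.T2h48.LZ
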