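import Pool.Agent.T2h48.LZ.T_NUM

set_option autoImplicit false

namespace Pool.Agent.T2h48.LZ

open Filter Topology

theorem lim_of (q v : ℕ → ℕ) (h d : ℕ) (C : ℝ) (hq : Tendsto q atTop atTop)
    (hb : ∀ n, |(v n : ℝ) - h * (q n : ℝ) ^ d| * √(q n : ℝ) ≤ C * (q n : ℝ) ^ d) :
    Tendsto (fun n => (v n : ℝ) / (q n : ℝ) ^ d) atTop (𝓝 h) := by
  have hqr : Tendsto (fun n => (q n : ℝ)) atTop atTop := tendsto_natCast_atTop_atTop.comp hq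
  have h1 : Tendsto (fun n => C / √(q n : ℝ)) atTop (𝓝 0) :=
    Tendsto.div_atTop tendsto_const_nhds (Real.tendsto_sqrt_atTop.comp hqr)
  rw [tendsto_iff_dist_tendsto_zero]
  refine squeeze_zero' (Eventually.of_forall fun n => dist_nonneg) ?_ h1
  have h2 : ∀ᶠ n in atTop, 1 ≤ q n := hq.eventually (eventually_ge_atTop 1)
  filter_upwards [h2] with n hn
  have hq0 : (0 : ℝ) < q n := by exact_mod_cast hn
  have hs : 0 < √(q n : ℝ) := Real.sqrt_pos.2 hq0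
  have hp : (0 : ℝ) < (q n : ℝ) ^ d := by positivity
  rw [Real.dist_eq, le_div_iff₀ hs]
  have e : (v n : ℝ) / (q n : ℝ) ^ d - h = ((v n : ℝ) - h * (q n : ℝ) ^ d) / (q n : ℝ) ^ d := by
    field_simp
  rw [e, abs_div, abs_of_pos hp, div_mul_eq_mul_div, div_le_iff₀ hp]
  exact hb n

theorem num_fix (C : ℝ) (l h d h' d' : ℕ) (hl : 1 ≤ l) (hh : 1 ≤ h) (hd : 1 ≤ d) (hh' : 1 ≤ h') :
    ∃ M : ℕ, ∀ q v k w : ℕ, M ≤ q → w = v * k → (k : ℤ) * (k - 1) = l * (v - 1) →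
      |(v : ℝ) - h * (q : ℝ) ^ d| * √(q : ℝ) ≤ C * (q : ℝ) ^ d →
      |(w : ℝ) - h' * (q : ℝ) ^ d'| * √(q : ℝ) ≤ C * (q : ℝ) ^ d' →
      3 * d = 2 * d' ∧ h' ^ 2 = l * h ^ 3 := by
  by_contra hcon
  push Not at hcon
  choose q v k w hq hw hk h1 h2 hne using hcon
  have hqt : Tendsto q atTop atTop := tendsto_atTop_mono hq tendsto_id
  have := t_NUM q v k w l h d h' d' hl hh hd hh' hqt (lim_of q v h d C hqt h1)
    (lim_of q w h' d' C hqt h2) (fun n => ⟨hw n, hk n⟩)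
  exact hne 0 this.1 this.2

/-- `l h` is a square -/
theorem sq_of (l h h' : ℕ) (hh : 1 ≤ h) (e : h' ^ 2 = l * h ^ 3) : ∃ m : ℕ, h' = m * h ∧ l * h = m ^ 2 := by
  have h1 : h ^ 2 ∣ h' ^ 2 := ⟨l * h, by rw [e]; ring⟩
  have h2 : h ∣ h' := (Nat.pow_dvd_pow_iff two_ne_zero).1 h1
  obtain ⟨m, rfl⟩ := h2
  refine ⟨m, by ring, ?_⟩
  have h3 : h ^ 2 * (l * h) = h ^ 2 * m ^ 2 := by
    rw [mul_pow] at e
    rw [e]
    ring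
  exact Nat.eq_of_mul_eq_mul_left (by positivity) h3

/-- all the tuples at once -/
theorem num_all (C : ℝ) (L D : ℕ) :
    ∃ M : ℕ, ∀ l h d h' d' : ℕ, 1 ≤ l → l ≤ L → 1 ≤ h → h ≤ D → 1 ≤ d → d ≤ D → 1 ≤ h' → h' ≤ D →
      d' ≤ D → ∀ q v k w : ℕ, M ≤ q → w = v * k → (k : ℤ) * (k - 1) = l * (v - 1) →
      |(v : ℝ) - h * (q : ℝ) ^ d| * √(q : ℝ) ≤ C * (q : ℝ) ^ d →
      |(w : ℝ) - h' * (q : ℝ) ^ d'| * √(q : ℝ) ≤ C * (q : ℝ) ^ d' →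
      3 * d = 2 * d' ∧ h' ^ 2 = l * h ^ 3 := by
  have key : ∀ l h d h' d' : ℕ, ∃ M : ℕ, 1 ≤ l → 1 ≤ h → 1 ≤ d → 1 ≤ h' →
      ∀ q v k w : ℕ, M ≤ q → w = v * k → (k : ℤ) * (k - 1) = l * (v - 1) →
      |(v : ℝ) - h * (q : ℝ) ^ d| * √(q : ℝ) ≤ C * (q : ℝ) ^ d →
      |(w : ℝ) - h' * (q : ℝ) ^ d'| * √(q : ℝ) ≤ C * (q : ℝ) ^ d' →
      3 * d = 2 * d' ∧ h' ^ 2 = l * h ^ 3 := by
    intro l h d h' d'
    by_cases hc : 1 ≤ l ∧ 1 ≤ h ∧ 1 ≤ d ∧ 1 ≤ h'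
    · obtain ⟨M, hM⟩ := num_fix C l h d h' d' hc.1 hc.2.1 hc.2.2.1 hc.2.2.2
      exact ⟨M, fun _ _ _ _ => hM⟩
    · exact ⟨0, fun h1 h2 h3 h4 => absurd ⟨h1, h2, h3, h4⟩ hc⟩
  choose M hM using key
  let S : Finset (ℕ × ℕ × ℕ × ℕ × ℕ) := Finset.range (L + 1) ×ˢ Finset.range (D + 1) ×ˢ
    Finset.range (D + 1) ×ˢ Finset.range (D + 1) ×ˢ Finset.range (D + 1)
  refine ⟨S.sup fun x => M x.1 x.2.1 x.2.2.1 x.2.2.2.1 x.2.2.2.2, ?_⟩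
  intro l h d h' d' hl hlL hh hhD hd hdD hh' hh'D hd'D q v k w hq
  refine hM l h d h' d' hl hh hd hh' q v k w ?_
  refine le_trans ?_ hq
  have hmem : (l, h, d, h', d') ∈ S := by
    simp only [S, Finset.mem_product, Finset.mem_range]
    omega
  exact Finset.le_sup (f := fun x : ℕ × ℕ × ℕ × ℕ × ℕ => M x.1 x.2.1 x.2.2.1 x.2.2.2.1 x.2.2.2.2) hmem

end Pool.Agent.T2h48.LZ
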