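import Pool.Agent.T2h48.LZ.T_RING

set_option autoImplicit false
set_option linter.all false
set_option maxHeartbeats 1000000

namespace Pool.Agent.T2h48.LZ

open Pool.Agent.T2h48.DW MvPolynomial

/-- the number of the points of locally closed sets satisfying `G` has an asymptotic form -/
def Good {n : ℕ} (G : (k : Type) → [Field k] → (Fin n → k) → Prop) : Prop :=
  ∀ (I : Ideal (MvPolynomial (Fin n) ℤ)) (t : MvPolynomial (Fin n) ℤ),
    Asy (fun k _ _ => Nat.card {x : Fin n → k // (∀ f ∈ I, aeval x f = 0) ∧ aeval x t ≠ 0 ∧ G k x})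

theorem good_true (hadd : S_ADD) (hL : S_LANDAU) (n : ℕ) :
    Good (n := n) (fun _ _ _ => True) := by
  intro I t
  have hft : @Algebra.FiniteType ℤ (MvPolynomial (Fin n) ℤ) _ _ (Ring.toIntAlgebra _) := by
    have h : Algebra.FiniteType ℤ (MvPolynomial (Fin n) ℤ) := inferInstance
    have e : @algebraMap ℤ (MvPolynomial (Fin n) ℤ) _ _ AddMonoidAlgebra.algebra =
        @algebraMap ℤ (MvPolynomial (Fin n) ℤ) _ _ (Ring.toIntAlgebra _) := RingHom.ext_int _ _
    let f : @AlgHom ℤ (MvPolynomial (Fin n) ℤ) (MvPolynomial (Fin n) ℤ) _ _ _ AddMonoidAlgebra.algebra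
        (Ring.toIntAlgebra _) :=
      @AlgHom.mk ℤ (MvPolynomial (Fin n) ℤ) (MvPolynomial (Fin n) ℤ) _ _ _ AddMonoidAlgebra.algebra
        (Ring.toIntAlgebra _) (RingHom.id _) (fun r => RingHom.congr_fun e r)
    exact @Algebra.FiniteType.of_surjective ℤ (MvPolynomial (Fin n) ℤ) (MvPolynomial (Fin n) ℤ) _ _ _
      AddMonoidAlgebra.algebra (Ring.toIntAlgebra _) h f Function.surjective_id
  refine asy_congr ?_ (@asy_nu hadd hL (MvPolynomial (Fin n) ℤ) _ hft I t)
  intro k _ _
  unfold nu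
  have e : ∀ (φ : MvPolynomial (Fin n) ℤ →+* k) (f : MvPolynomial (Fin n) ℤ),
      aeval (fun i => φ (X i)) f = φ f := by
    intro φ f
    have h : ((aeval (fun i => φ (X i)) : MvPolynomial (Fin n) ℤ →ₐ[ℤ] k) :
        MvPolynomial (Fin n) ℤ →+* k) = φ := by
      apply MvPolynomial.ringHom_ext
      · intro r
        rw [RingHom.coe_coe, ← algebraMap_eq, AlgHom.commutes]
        exact (RingHom.congr_fun (RingHom.ext_int (algebraMap ℤ k)
          (φ.comp (algebraMap ℤ (MvPolynomial (Fin n) ℤ)))) r)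
      · intro i
        exact aeval_X _ i
    exact RingHom.congr_fun h f
  let F : {φ : MvPolynomial (Fin n) ℤ →+* k // (∀ a ∈ I, φ a = 0) ∧ φ t ≠ 0} →
      {x : Fin n → k // (∀ f ∈ I, aeval x f = 0) ∧ aeval x t ≠ 0 ∧ True} := fun φ =>
    ⟨fun i => φ.1 (X i), fun f hf => by rw [e]; exact φ.2.1 f hf, by rw [e]; exact φ.2.2, trivial⟩
  let G : {x : Fin n → k // (∀ f ∈ I, aeval x f = 0) ∧ aeval x t ≠ 0 ∧ True} →
      {φ : MvPolynomial (Fin n) ℤ →+* k // (∀ a ∈ I, φ a = 0) ∧ φ t ≠ 0} := fun x =>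
    ⟨((aeval x.1 : MvPolynomial (Fin n) ℤ →ₐ[ℤ] k) : MvPolynomial (Fin n) ℤ →+* k), x.2.1, x.2.2.1⟩
  refine (Nat.card_congr ⟨F, G, ?_, ?_⟩).symm
  · intro φ
    apply Subtype.ext
    exact RingHom.ext fun f => e φ.1 f
  · intro x
    apply Subtype.ext
    funext i
    exact aeval_X x.1 i

theorem good_qf (hadd : S_ADD) {n : ℕ} (φ : QF ℤ n) :
    ∀ G : (k : Type) → [Field k] → (Fin n → k) → Prop, Good G →
      Good (fun k _ x => φ.Holds x ∧ G k x) ∧ Good (fun k _ x => ¬ φ.Holds x ∧ G k x) := by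
  induction φ with
  | eq f =>
    intro G hG
    constructor
    · intro I t
      refine asy_congr ?_ (hG (I ⊔ Ideal.span {f}) t)
      intro k _ _
      refine Nat.card_congr (Equiv.subtypeEquivRight fun x => ?_)
      have h1 : (∀ g ∈ I ⊔ Ideal.span {f}, aeval x g = 0) ↔
          (∀ g ∈ I, aeval x g = 0) ∧ aeval x f = 0 := by
        constructor
        · intro h
          exact ⟨fun g hg => h g (Ideal.mem_sup_left hg),
            h f (Ideal.mem_sup_right (Ideal.mem_span_singleton_self f))⟩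
        · rintro ⟨h1, h2⟩ g hg
          have h3 : I ⊔ Ideal.span {f} ≤
              RingHom.ker (aeval x : MvPolynomial (Fin n) ℤ →ₐ[ℤ] k) := by
            rw [sup_le_iff]
            refine ⟨fun y hy => h1 y hy, ?_⟩
            rw [Ideal.span_le, Set.singleton_subset_iff]
            exact h2
          exact h3 hg
      rw [h1]
      show _ ∧ _ ∧ (aeval x f = 0 ∧ G k x) ↔ _
      tauto
    · intro I t
      refine asy_congr ?_ (hG I (t * f))
      intro k _ _
      refine Nat.card_congr (Equiv.subtypeEquivRight fun x => ?_)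
      rw [map_mul, mul_ne_zero_iff]
      show _ ∧ _ ∧ (¬ aeval x f = 0 ∧ G k x) ↔ _
      tauto
  | neg φ ih =>
    intro G hG
    obtain ⟨h1, h2⟩ := ih G hG
    refine ⟨h2, ?_⟩
    intro I t
    refine asy_congr ?_ (h1 I t)
    intro k _ _
    refine Nat.card_congr (Equiv.subtypeEquivRight fun x => ?_)
    show _ ∧ _ ∧ (¬ ¬ φ.Holds x ∧ G k x) ↔ _
    rw [not_not]
  | and φ ψ ih1 ih2 =>
    intro G hG
    obtain ⟨h1, h2⟩ := ih1 G hG
    obtain ⟨h3, h4⟩ := ih2 _ h1
    constructor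
    · intro I t
      refine asy_congr ?_ (h3 I t)
      intro k _ _
      refine Nat.card_congr (Equiv.subtypeEquivRight fun x => ?_)
      show _ ∧ _ ∧ ((φ.Holds x ∧ ψ.Holds x) ∧ G k x) ↔ _
      tauto
    · intro I t
      refine asy_congr ?_ (hadd _ _ (h2 I t) (h4 I t))
      intro k _ _
      refine card_split _ _ _ ?_ ?_
      · intro x
        show _ ∧ _ ∧ (¬ (φ.Holds x ∧ ψ.Holds x) ∧ G k x) ↔ _
        tauto
      · intro x
        tauto

theorem t_FORM (hadd : S_ADD) (hL : S_LANDAU) : S_FORM := by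
  intro n φ
  refine asy_congr ?_ ((good_qf hadd φ _ (good_true hadd hL n)).1 ⊥ 1)
  intro k _ _
  refine Nat.card_congr (Equiv.subtypeEquivRight fun x => ?_)
  constructor
  · intro h
    refine ⟨?_, ?_, h, trivial⟩
    · intro f hf
      rw [Ideal.mem_bot] at hf
      rw [hf, map_zero]
    · rw [map_one]
      exact one_ne_zero
  · exact fun h => h.2.2.1

end Pool.Agent.T2h48.LZ
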