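import Pool.Agent.T2h48.LZ.Stm

/-!
# POLY: Gauss lemma
-/

set_option autoImplicit false

namespace Pool.Agent.T2h48.LZ

open Polynomial

/-- idempotents of a polynomial ring are constants -/
theorem idem_coeff {A : Type*} [CommRing A] (e : A[X]) (he : e * e = e) (n : ℕ) (hn : n ≠ 0) :
    e.coeff n = 0 := by
  set a : A[X] := C (e.coeff 0) with ha
  have haa : a * a = a := by
    rw [ha, ← C_mul, ← mul_coeff_zero, he]
  set f : A[X] := e - a with hf
  have hf3 : f ^ 3 = f := by
    have h1 : e ^ 2 = e := by rw [sq, he]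
    have h2 : a ^ 2 = a := by rw [sq, haa]
    have h3 : e ^ 3 = e := by rw [pow_succ, h1, he]
    have h4 : a ^ 3 = a := by rw [pow_succ, h2, haa]
    have : f ^ 3 = e ^ 3 - 3 * (e ^ 2) * a + 3 * e * (a ^ 2) - a ^ 3 := by rw [hf]; ring
    rw [this, h1, h2, h3, h4, hf]
    ring
  have hdiv : ∀ k : ℕ, (X : A[X]) ^ k ∣ f := by
    intro k
    induction k with
    | zero => simp
    | succ k ih =>
      rcases Nat.eq_zero_or_pos k with rfl | hk
      · rw [zero_add, pow_one, X_dvd_iff, hf, coeff_sub, ha, coeff_C_zero, sub_self]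
      · rw [← hf3]
        refine (pow_dvd_pow X (show k + 1 ≤ k * 3 by omega)).trans ?_
        rw [pow_mul]
        exact pow_dvd_pow_of_dvd ih 3
  have h0 : f.coeff n = 0 := by
    have := (X_pow_dvd_iff.1 (hdiv (n + 1))) n (by omega)
    exact this
  rw [hf, coeff_sub, ha, coeff_C, if_neg hn, sub_zero] at h0
  exact h0

theorem t_POLY : S_POLY := by
  intro V l R hl hV hR
  -- `K = (1 + R) / 2`
  set K : ℚ[X] := C (1 / 2 : ℚ) * (1 + R) with hK
  have hKK : K * K - K = (C l * (V - 1)).map (Int.castRingHom ℚ) := by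
    have h2 : (C (1 / 2 : ℚ) : ℚ[X]) * 2 = 1 := by
      rw [show (2 : ℚ[X]) = C (2 : ℚ) from (map_ofNat C 2).symm, ← C_mul]
      norm_num
    have e1 : K * K - K = C (1 / 2 : ℚ) * C (1 / 2 : ℚ) * (R ^ 2 - 1) +
        (C (1 / 2 : ℚ) * 2 - 1) * (C (1 / 2 : ℚ) * (1 + R)) := by
      rw [hK]
      ring
    rw [e1, h2, sub_self, zero_mul, add_zero, hR]
    simp only [Polynomial.map_add, Polynomial.map_mul, Polynomial.map_one, Polynomial.map_sub, map_C,
      Polynomial.map_ofNat]
    rw [add_sub_cancel_left]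
    calc C (1 / 2 : ℚ) * C (1 / 2 : ℚ) * (4 * C ((Int.castRingHom ℚ) l) * (map (Int.castRingHom ℚ) V - 1))
        = (C (1 / 2 : ℚ) * 2) * (C (1 / 2 : ℚ) * 2) *
            (C ((Int.castRingHom ℚ) l) * (map (Int.castRingHom ℚ) V - 1)) := by ring
      _ = _ := by rw [h2]; ring
  have hint : ∀ n, IsIntegral ℤ (K.coeff n) := by
    rw [← Polynomial.isIntegral_iff_isIntegral_coeff]
    refine ⟨X ^ 2 - X - C (C l * (V - 1)), ?_, ?_⟩
    · have : (X ^ 2 - X - C (C l * (V - 1)) : ℤ[X][X]) = X ^ 2 - (X + C (C l * (V - 1))) := by ring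
      rw [this]
      apply Monic.sub_of_left (monic_X_pow 2)
      rw [degree_X_add_C, degree_X_pow]
      norm_num
    · rw [eval₂_sub, eval₂_sub, eval₂_pow, eval₂_X, eval₂_C, sq]
      rw [sub_eq_zero, hKK]
      rfl
  have hlift : ∃ K₀ : ℤ[X], K₀.map (Int.castRingHom ℚ) = K := by
    have : K ∈ Polynomial.lifts (Int.castRingHom ℚ) := by
      rw [Polynomial.lifts_iff_coeff_lifts]
      intro n
      obtain ⟨z, hz⟩ := IsIntegrallyClosed.isIntegral_iff.mp (hint n)
      exact ⟨z, by simpa using hz⟩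
    obtain ⟨K₀, hK₀⟩ := (Polynomial.mem_lifts K).1 this
    exact ⟨K₀, hK₀⟩
  obtain ⟨K₀, hK₀⟩ := hlift
  have hinj : Function.Injective (Int.castRingHom ℚ) := Int.cast_injective
  have hKZ : K₀ * K₀ - K₀ = C l * (V - 1) := by
    apply Polynomial.map_injective _ hinj
    rw [Polynomial.map_sub, Polynomial.map_mul, hK₀, hKK]
  -- degrees
  have hV1 : (V - 1).natDegree = V.natDegree := by
    rw [show (1 : ℤ[X]) = C 1 by simp, natDegree_sub_C]
  have hVl : (V - 1).leadingCoeff = V.leadingCoeff := by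
    rw [leadingCoeff, hV1, coeff_sub, show (1 : ℤ[X]) = C 1 by simp, coeff_C, if_neg (by omega), sub_zero]
    rfl
  have hm : K₀.natDegree ≠ 0 := by
    intro h0
    obtain ⟨a, ha⟩ := natDegree_eq_zero.1 h0
    have : (C l * (V - 1)).natDegree = 0 := by
      rw [← hKZ, ← ha, ← C_mul, ← C_sub, natDegree_C]
    rw [natDegree_C_mul hl, hV1] at this
    omega
  have hlead : (K₀ * K₀ - K₀).leadingCoeff = K₀.leadingCoeff * K₀.leadingCoeff := by
    have hK0 : K₀ ≠ 0 := by
      rintro rfl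
      simp at hm
    have hlt : K₀.degree < (K₀ * K₀).degree := by
      rw [degree_mul, degree_eq_natDegree hK0]
      exact_mod_cast (by omega : K₀.natDegree < K₀.natDegree + K₀.natDegree)
    rw [sub_eq_add_neg, leadingCoeff_add_of_degree_lt' (by rwa [degree_neg]), leadingCoeff_mul]
  have hlc : l * V.leadingCoeff = K₀.leadingCoeff * K₀.leadingCoeff := by
    rw [← hlead, hKZ, leadingCoeff_mul, leadingCoeff_C, hVl]
  -- `l` divides the leading coefficient of `K₀`
  have hdvd : l ∣ K₀.leadingCoeff := by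
    have hid : K₀.map (Ideal.Quotient.mk (Ideal.span {l})) * K₀.map (Ideal.Quotient.mk (Ideal.span {l})) =
        K₀.map (Ideal.Quotient.mk (Ideal.span {l})) := by
      rw [← sub_eq_zero, ← Polynomial.map_mul, ← Polynomial.map_sub, hKZ, Polynomial.map_mul, map_C,
        Ideal.Quotient.eq_zero_iff_mem.2 (Ideal.mem_span_singleton_self l), C_0, zero_mul]
    have := idem_coeff _ hid K₀.natDegree hm
    rw [coeff_map, Ideal.Quotient.eq_zero_iff_mem, Ideal.mem_span_singleton] at this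
    exact this
  obtain ⟨m, hm'⟩ := hdvd
  rw [hm'] at hlc
  refine ⟨m * m, ?_⟩
  apply mul_left_cancel₀ hl
  rw [hlc]
  ring

end Pool.Agent.T2h48.LZ
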