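import Pool.Agent.T2h48.LZ.Stm

/-!
# RUNGE: Runge's method
-/

set_option autoImplicit false

namespace Pool.Agent.T2h48.LZ

open Polynomial Filter Topology

/-- successive approximation of the square root -/
theorem run_approx (D : ℚ[X]) (e : ℕ) (c : ℚ) (hc : c ≠ 0) (hd : D.natDegree = 2 * e)
    (hl : D.leadingCoeff = c ^ 2) : ∀ j : ℕ, j ≤ e → ∃ R : ℚ[X], R.natDegree ≤ e ∧ R.coeff e = c ∧
      ∀ i, 2 * e ≤ i + j → (D - R ^ 2).coeff i = 0 := by
  intro j
  induction j with
  | zero =>
    intro _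
    refine ⟨C c * X ^ e, natDegree_C_mul_X_pow_le c e, by simp, fun i hi => ?_⟩
    have h2 : (C c * X ^ e : ℚ[X]) ^ 2 = C (c ^ 2) * X ^ (2 * e) := by
      rw [mul_pow, ← pow_mul, mul_comm e 2, C_pow]
    rw [h2, coeff_sub, coeff_C_mul, coeff_X_pow]
    rcases eq_or_lt_of_le (show 2 * e ≤ i by omega) with h | h
    · rw [← h, ← hd, coeff_natDegree, hl]
      simp
    · rw [coeff_eq_zero_of_natDegree_lt (by omega), if_neg (by omega)]
      simp
  | succ j ih =>
    intro hj
    obtain ⟨R, h1, h2, h3⟩ := ih (by omega)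
    set a : ℚ := (D - R ^ 2).coeff (2 * e - j - 1) with ha
    set b : ℚ := a / (2 * c) with hb
    have hab : 2 * c * b = a := by rw [hb]; field_simp
    refine ⟨R + C b * X ^ (e - j - 1), ?_, ?_, fun i hi => ?_⟩
    · exact (natDegree_add_le _ _).trans (max_le h1 ((natDegree_C_mul_X_pow_le _ _).trans (by omega)))
    · rw [coeff_add, h2, coeff_C_mul, coeff_X_pow, if_neg (by omega)]
      simp
    · have e1 : D - (R + C b * X ^ (e - j - 1)) ^ 2 = (D - R ^ 2) - C (2 * b) * (R * X ^ (e - j - 1)) -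
          C (b ^ 2) * X ^ (2 * (e - j - 1)) := by
        have : (X : ℚ[X]) ^ (2 * (e - j - 1)) = X ^ (e - j - 1) * X ^ (e - j - 1) := by
          rw [← pow_add, two_mul]
        rw [this, C_mul, C_pow]
        have : (C (2 : ℚ) : ℚ[X]) = 2 := map_ofNat C 2
        rw [this]
        ring
      rw [e1, coeff_sub, coeff_sub, coeff_C_mul, coeff_C_mul, coeff_X_pow, if_neg (by omega), mul_zero,
        sub_zero, coeff_mul_X_pow', if_pos (by omega)]
      rcases eq_or_lt_of_le (show 2 * e - j - 1 ≤ i by omega) with h | h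
      · rw [← h, ← ha, show 2 * e - j - 1 - (e - j - 1) = e by omega, h2, ← hab]
        ring
      · rw [h3 i (by omega), coeff_eq_zero_of_natDegree_lt (by omega)]
        simp

theorem t_RUNGE : S_RUNGE := by
  intro D e c he hd hl hsq
  have hD : D ≠ 0 := by
    rintro rfl
    simp at hd
    omega
  have hc : c ≠ 0 := by
    rintro rfl
    apply hD
    rw [← leadingCoeff_eq_zero, hl]
    simp
  have hinj : Function.Injective (Int.castRingHom ℚ) := Int.cast_injective
  have hd' : (D.map (Int.castRingHom ℚ)).natDegree = 2 * e := by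
    rw [natDegree_map_eq_of_injective hinj, hd]
  have hl' : (D.map (Int.castRingHom ℚ)).leadingCoeff = (c : ℚ) ^ 2 := by
    rw [leadingCoeff_map_of_injective hinj, hl]
    simp
  obtain ⟨R, h1, h2, h3⟩ := run_approx (D.map (Int.castRingHom ℚ)) e (c : ℚ) (by exact_mod_cast hc) hd' hl'
    e le_rfl
  refine ⟨R, ?_⟩
  obtain ⟨b, hb, hP⟩ := IsLocalization.integerNormalization_spec (nonZeroDivisors ℤ) R
  set P : ℤ[X] := IsLocalization.integerNormalization (nonZeroDivisors ℤ) R with hPdef
  have hb0 : b ≠ 0 := nonZeroDivisors.ne_zero hb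
  have hbQ : (b : ℚ) ≠ 0 := by exact_mod_cast hb0
  have hP' : P.map (Int.castRingHom ℚ) = C (b : ℚ) * R := by
    have : (algebraMap ℤ ℚ) = Int.castRingHom ℚ := Subsingleton.elim _ _
    rw [← this, hP]
    rw [← smul_eq_C_mul]
    ext i
    simp
  set E : ℤ[X] := C (b ^ 2) * D - P ^ 2 with hE
  have hE' : E.map (Int.castRingHom ℚ) = C ((b : ℚ) ^ 2) * (D.map (Int.castRingHom ℚ) - R ^ 2) := by
    rw [hE, Polynomial.map_sub, Polynomial.map_mul, Polynomial.map_pow, hP', map_C]
    simp only [C_pow, eq_intCast, Int.cast_pow]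
    ring
  have hEc : ∀ i, e ≤ i → E.coeff i = 0 := by
    intro i hi
    have := congrArg (fun p : ℚ[X] => p.coeff i) hE'
    simp only [coeff_map, coeff_C_mul, h3 i (by omega), mul_zero] at this
    exact hinj (by simpa using this)
  have hPc : P.coeff e ≠ 0 := by
    intro h0
    have := congrArg (fun p : ℚ[X] => p.coeff e) hP'
    simp only [coeff_map, coeff_C_mul, h2, h0, map_zero] at this
    have hcQ : (c : ℚ) ≠ 0 := by exact_mod_cast hc
    exact mul_ne_zero hbQ hcQ this.symm
  -- E = 0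
  have hE0 : E = 0 := by
    by_contra hne
    have hinjR : Function.Injective (Int.castRingHom ℝ) := Int.cast_injective
    have hdeg : (E.map (Int.castRingHom ℝ)).degree < (P.map (Int.castRingHom ℝ)).degree := by
      rw [degree_map_eq_of_injective hinjR, degree_map_eq_of_injective hinjR]
      refine lt_of_lt_of_le ?_ (le_degree_of_ne_zero hPc)
      rw [degree_lt_iff_coeff_zero]
      exact hEc
    have ht := div_tendsto_atTop_zero_of_degree_lt (E.map (Int.castRingHom ℝ))
      (P.map (Int.castRingHom ℝ)) hdeg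
    have h4 : ∀ᶠ x : ℝ in atTop, |eval x (E.map (Int.castRingHom ℝ)) / eval x (P.map (Int.castRingHom ℝ))| < 1 := by
      have := ht.abs
      rw [abs_zero] at this
      exact this.eventually (gt_mem_nhds one_pos)
    have h5 : ∀ᶠ x : ℝ in atTop, ¬ (P.map (Int.castRingHom ℝ)).IsRoot x := by
      apply eventually_atTop_not_isRoot
      intro h
      rw [Polynomial.map_eq_zero_iff hinjR] at h
      apply hPc
      rw [h]
      simp
    have h6 : ∀ᶠ x : ℝ in atTop, ¬ (E.map (Int.castRingHom ℝ)).IsRoot x := by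
      apply eventually_atTop_not_isRoot
      intro h
      rw [Polynomial.map_eq_zero_iff hinjR] at h
      exact hne h
    obtain ⟨x0, hx0⟩ := eventually_atTop.1 ((h4.and h5).and h6)
    obtain ⟨q, hq, s, hs⟩ := hsq ⌈x0⌉₊
    have hq' : x0 ≤ (q : ℝ) := (Nat.le_ceil x0).trans (by exact_mod_cast hq)
    obtain ⟨⟨g4, g5⟩, g6⟩ := hx0 (q : ℝ) hq'
    have ev : ∀ F : ℤ[X], eval (q : ℝ) (F.map (Int.castRingHom ℝ)) = ((F.eval (q : ℤ) : ℤ) : ℝ) := by
      intro F
      rw [eval_map, show ((q : ℝ)) = (Int.castRingHom ℝ) (q : ℤ) by simp, eval₂_at_apply]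
      simp
    rw [ev, ev] at g4
    rw [IsRoot.def, ev] at g5 g6
    have g5' : P.eval (q : ℤ) ≠ 0 := by exact_mod_cast g5
    have g6' : E.eval (q : ℤ) ≠ 0 := by exact_mod_cast g6
    rw [abs_div, div_lt_one (by positivity)] at g4
    have g4' : |E.eval (q : ℤ)| < |P.eval (q : ℤ)| := by exact_mod_cast g4
    have hEq : E.eval (q : ℤ) = (b * s) ^ 2 - (P.eval (q : ℤ)) ^ 2 := by
      rw [hE, eval_sub, eval_mul, eval_C, eval_pow, hs]
      ring
    set u : ℤ := |b * s| with hu
    set w : ℤ := |P.eval (q : ℤ)| with hw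
    have hu0 : 0 ≤ u := abs_nonneg _
    have hw0 : 0 < w := abs_pos.2 g5'
    have hEq' : E.eval (q : ℤ) = (u - w) * (u + w) := by
      rw [hEq, ← sq_abs (b * s), ← sq_abs (P.eval (q : ℤ))]
      ring
    have huw : u ≠ w := by
      intro h
      apply g6'
      rw [hEq', h]
      ring
    have hge : w ≤ |E.eval (q : ℤ)| := by
      rw [hEq', abs_mul, abs_of_pos (show 0 < u + w by linarith)]
      have h1' : 1 ≤ |u - w| := by
        have : 0 < |u - w| := abs_pos.2 (sub_ne_zero.2 huw)
        omega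
      nlinarith
    omega
  have h0 : (C ((b : ℚ) ^ 2) : ℚ[X]) * (D.map (Int.castRingHom ℚ) - R ^ 2) = 0 := by
    rw [← hE', hE0, Polynomial.map_zero]
  rcases mul_eq_zero.1 h0 with h | h
  · rw [C_eq_zero] at h
    exact absurd h (pow_ne_zero 2 hbQ)
  · rw [sub_eq_zero] at h
    exact h.symm

end Pool.Agent.T2h48.LZ
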