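import Pool.Agent.T2h48.DW.All
import Pool.Agent.T2h48.LZ.Num2
import Pool.Agent.T2h48.LZ.T_FORM
import Pool.Agent.T2h48.LZ.T_ADD
import Pool.Agent.T2h48.LZ.T_LANDAU
import Pool.Agent.T2h48.LZ.T_RUNGE
import Pool.Agent.T2h48.LZ.T_POLY

set_option autoImplicit false
set_option maxHeartbeats 1000000

namespace Pool.Agent.T2h48.LZ

open Pool.Agent.T2h48.DW
open Filter Topology Polynomial

/-- **Lang–Weil** for constructible sets over `ℤ` -/
theorem form (n : ℕ) (φ : QF ℤ n) : Asy (fun k _ _ => Nat.card {x : Fin n → k // φ.Holds x}) :=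
  t_FORM t_ADD t_LANDAU n φ

/-- change of the ring of parameters -/
noncomputable def qmap {R S : Type} [CommRing R] [CommRing S] {n : ℕ} (f : R →+* S) : QF R n → QF S n
  | QF.eq g => QF.eq (MvPolynomial.map f g)
  | QF.neg φ => QF.neg (qmap f φ)
  | QF.and φ ψ => QF.and (qmap f φ) (qmap f ψ)

theorem holds_qmap {R S K : Type} [CommRing R] [CommRing S] [CommRing K] [Algebra R K] [Algebra S K]
    {n : ℕ} (f : R →+* S) (hf : (algebraMap S K).comp f = algebraMap R K) (φ : QF R n) (x : Fin n → K) :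
    (qmap f φ).Holds x ↔ φ.Holds x := by
  induction φ with
  | eq g =>
    show MvPolynomial.aeval x (MvPolynomial.map f g) = 0 ↔ MvPolynomial.aeval x g = 0
    rw [MvPolynomial.aeval_def, MvPolynomial.aeval_def, MvPolynomial.eval₂_map, hf]
  | neg φ ih => exact not_congr ih
  | and φ ψ ih1 ih2 => exact and_congr ih1 ih2

/-- a polynomial is close to its leading term -/
theorem poly_close (V : ℤ[X]) (hV : 1 ≤ V.natDegree) : ∃ A : ℕ, ∀ q : ℕ, 1 ≤ q →
    |V.eval (q : ℤ) - V.leadingCoeff * (q : ℤ) ^ V.natDegree| ≤ A * (q : ℤ) ^ (V.natDegree - 1) := by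
  refine ⟨∑ i ∈ Finset.range V.natDegree, (V.coeff i).natAbs, ?_⟩
  intro q hq
  rw [eval_eq_sum_range, Finset.sum_range_succ]
  have e : ∑ x ∈ Finset.range V.natDegree, V.coeff x * (q : ℤ) ^ x +
      V.coeff V.natDegree * (q : ℤ) ^ V.natDegree - V.leadingCoeff * (q : ℤ) ^ V.natDegree =
      ∑ x ∈ Finset.range V.natDegree, V.coeff x * (q : ℤ) ^ x := by
    rw [leadingCoeff]
    ring
  rw [e]
  refine (Finset.abs_sum_le_sum_abs _ _).trans ?_
  push_cast
  rw [Finset.sum_mul]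
  refine Finset.sum_le_sum fun i hi => ?_
  rw [Finset.mem_range] at hi
  rw [abs_mul, abs_pow, Nat.abs_cast]
  refine mul_le_mul_of_nonneg_left ?_ (abs_nonneg _)
  exact pow_le_pow_right₀ (by exact_mod_cast hq) (by omega)

theorem ringChar_le_card (F : Type) [Field F] [Finite F] : ringChar F ≤ Nat.card F := by
  have h1 : ringChar F ∣ Nat.card F := by
    have := Fintype.ofFinite F
    rw [Nat.card_eq_fintype_card, ← ringChar.spec]
    exact Nat.cast_card_eq_zero F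
  exact Nat.le_of_dvd Nat.card_pos h1

theorem cast_ne_zero_of_lt (F : Type) [Field F] [Finite F] (N : ℕ) (hN : N ≠ 0) (h : N < ringChar F) :
    ((N : ℕ) : F) ≠ 0 := by
  rw [ne_eq, ringChar.spec]
  intro h1
  exact absurd (Nat.le_of_dvd (Nat.pos_of_ne_zero hN) h1) (by omega)

/-- the member over `F` of the family is a symmetric design -/
def Fam {a b : ℕ} (X : QF ℤ a) (B : QF ℤ b) (I : QF ℤ (a + b)) (F : Type) [Field F]
    (v k l : ℕ) : Prop :=
  IsSymmetricDesign (fun (x : {x : Fin a → F // X.Holds x})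
    (y : {y : Fin b → F // B.Holds y}) => I.Holds (Fin.append x.1 y.1)) v k l

theorem Fam.count {a b : ℕ} {X : QF ℤ a} {B : QF ℤ b} {I : QF ℤ (a + b)} {F : Type} [Field F] [Finite F]
    {v k l : ℕ} (h : Fam X B I F v k l) (hv : 0 < v) :
    Nat.card {z : Fin (a + b) → F // (QF.flags X B I).Holds z} = v * k ∧
      (k : ℤ) * (k - 1) = l * (v - 1) := by
  have h1 := IsSymmetricDesign.count h hv
  rw [← QF.card_flags X B I] at h1
  exact h1

theorem real_close (V : ℤ[X]) (hV : 1 ≤ V.natDegree) (hpos : 0 < V.leadingCoeff) {A q v : ℕ}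
    (hq : 1 ≤ q) (hA : |V.eval (q : ℤ) - V.leadingCoeff * (q : ℤ) ^ V.natDegree| ≤
      A * (q : ℤ) ^ (V.natDegree - 1)) (hv : (v : ℤ) = V.eval (q : ℤ)) :
    |(v : ℝ) - (V.leadingCoeff.toNat : ℕ) * (q : ℝ) ^ V.natDegree| * √(q : ℝ) ≤
      A * (q : ℝ) ^ V.natDegree := by
  rw [← hv] at hA
  have h1 : ((V.leadingCoeff.toNat : ℕ) : ℤ) = V.leadingCoeff := Int.toNat_of_nonneg hpos.le
  rw [← h1] at hA
  have h2 : |(v : ℝ) - (V.leadingCoeff.toNat : ℕ) * (q : ℝ) ^ V.natDegree| ≤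
      A * (q : ℝ) ^ (V.natDegree - 1) := by exact_mod_cast hA
  have hqr : (1 : ℝ) ≤ q := by exact_mod_cast hq
  have hs : √(q : ℝ) ≤ q := by
    rw [Real.sqrt_le_left (by linarith)]
    nlinarith
  have h3 : (q : ℝ) ^ V.natDegree = (q : ℝ) ^ (V.natDegree - 1) * q := by
    rw [← pow_succ]
    congr 1
    omega
  calc |(v : ℝ) - (V.leadingCoeff.toNat : ℕ) * (q : ℝ) ^ V.natDegree| * √(q : ℝ)
      ≤ (A * (q : ℝ) ^ (V.natDegree - 1)) * q :=
        mul_le_mul h2 hs (Real.sqrt_nonneg _) (by positivity)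
    _ = A * (q : ℝ) ^ V.natDegree := by rw [h3]; ring

theorem big_v (V : ℤ[X]) (hV : 1 ≤ V.natDegree) (hpos : 0 < V.leadingCoeff) {A q v : ℕ}
    (hq : A + 2 ≤ q) (hA : |V.eval (q : ℤ) - V.leadingCoeff * (q : ℤ) ^ V.natDegree| ≤
      A * (q : ℤ) ^ (V.natDegree - 1)) (hv : (v : ℤ) = V.eval (q : ℤ)) : 2 ≤ v := by
  have h1 := (abs_le.1 hA).1
  rw [← hv] at h1
  have h3 : (q : ℤ) ^ V.natDegree = (q : ℤ) ^ (V.natDegree - 1) * q := by
    rw [← pow_succ]
    congr 1
    omega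
  have h4 : (1 : ℤ) ≤ (q : ℤ) ^ (V.natDegree - 1) := one_le_pow₀ (by omega)
  have h5 : (q : ℤ) ^ V.natDegree ≤ V.leadingCoeff * (q : ℤ) ^ V.natDegree :=
    le_mul_of_one_le_left (by positivity) (by omega)
  have h6 : ((A : ℤ) + 2) * (q : ℤ) ^ (V.natDegree - 1) ≤ (q : ℤ) ^ V.natDegree := by
    rw [h3, mul_comm]
    exact mul_le_mul_of_nonneg_left (by exact_mod_cast hq) (by positivity)
  have h7 : (2 : ℤ) ≤ v := by nlinarith
  exact_mod_cast h7

theorem caseA {a b : ℕ} (X : QF ℤ a) (B : QF ℤ b) (I : QF ℤ (a + b)) (V : ℤ[X])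
    (hV : 1 ≤ V.natDegree) (hpos : 0 < V.leadingCoeff) (l : ℕ) (hl : 1 ≤ l)
    (hdvd : ¬ (l : ℤ) ∣ V.leadingCoeff) :
    ∃ p₀ : ℕ, ∀ (F : Type) [Field F] [Finite F], p₀ ≤ ringChar F → ∀ v k : ℕ,
      (v : ℤ) = V.eval (Nat.card F : ℤ) → ¬ Fam X B I F v k l := by
  by_contra hcon
  push Not at hcon
  obtain ⟨C, N, hN, hC⟩ := form _ (QF.flags X B I)
  obtain ⟨A, hA⟩ := poly_close V hV
  obtain ⟨M, hM⟩ := num_all ((C + A : ℕ) : ℝ) l (C + V.natDegree + V.leadingCoeff.toNat)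
  have hlc : 1 ≤ V.leadingCoeff.toNat := by omega
  have key : 3 * V.natDegree = 2 * (3 * V.natDegree / 2) ∧
      ∃ h' : ℕ, h' ^ 2 = l * V.leadingCoeff.toNat ^ 3 := by
    obtain ⟨F, iF, fF, hp, v, k, hv, hdes⟩ := hcon (M + N + 1 + (A + 2))
    have hq := ringChar_le_card F
    have hNF : ((N : ℕ) : F) ≠ 0 := cast_ne_zero_of_lt F N hN (by omega)
    obtain ⟨h', d', hh'C, hd'C, hz, hb⟩ := hC F hNF
    have hA' := hA (Nat.card F) (by omega)
    have hv2 : 2 ≤ v := big_v V hV hpos (by omega) hA' hv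
    obtain ⟨hfl, hk⟩ := hdes.count (by omega)
    have hh' : 1 ≤ h' := by
      by_contra h0
      have h1 := hz (by omega)
      simp only at h1
      rw [hfl] at h1
      rcases Nat.mul_eq_zero.1 h1 with h2 | h2
      · omega
      · subst h2
        have h3 : (l : ℤ) * ((v : ℤ) - 1) = 0 := by rw [← hk]; simp
        rcases mul_eq_zero.1 h3 with h4 | h4
        · omega
        · omega
    have hcl := real_close V hV hpos (by omega) hA' hv
    have hqr : (0 : ℝ) ≤ Nat.card F := Nat.cast_nonneg _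
    have := hM l V.leadingCoeff.toNat V.natDegree h' d' hl (le_refl _) hlc (by omega) hV (by omega) hh'
      (by omega) (by omega) (Nat.card F) v k (v * k) (by omega) rfl hk
      (hcl.trans (mul_le_mul_of_nonneg_right (by push_cast; linarith [Nat.cast_nonneg (α := ℝ) C])
        (by positivity)))
      (by
        rw [← hfl]
        exact hb.trans (mul_le_mul_of_nonneg_right
          (by push_cast; linarith [Nat.cast_nonneg (α := ℝ) A]) (by positivity)))
    exact ⟨by omega, h', this.2⟩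
  obtain ⟨hdeg, h', hh'⟩ := key
  obtain ⟨m, -, hm⟩ := sq_of l V.leadingCoeff.toNat h' hlc hh'
  have hmz : (l : ℤ) * V.leadingCoeff = (m : ℤ) ^ 2 := by
    have h1 : ((V.leadingCoeff.toNat : ℕ) : ℤ) = V.leadingCoeff := Int.toNat_of_nonneg hpos.le
    rw [← h1]
    exact_mod_cast hm
  have hD : (1 + 4 * Polynomial.C (l : ℤ) * (V - 1) : ℤ[X]) =
      Polynomial.C (4 * (l : ℤ)) * V + Polynomial.C (1 - 4 * (l : ℤ)) := by
    simp only [C_mul, C_sub, map_one, C_ofNat]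
    ring
  have h4l : (4 * (l : ℤ)) ≠ 0 := by omega
  have hDd : (1 + 4 * Polynomial.C (l : ℤ) * (V - 1) : ℤ[X]).natDegree = V.natDegree := by
    rw [hD, natDegree_add_C, natDegree_C_mul h4l]
  have hDl : (1 + 4 * Polynomial.C (l : ℤ) * (V - 1) : ℤ[X]).leadingCoeff = (2 * (m : ℤ)) ^ 2 := by
    rw [leadingCoeff, hDd, hD, coeff_add, coeff_C_mul, coeff_C_ne_zero (by omega), add_zero]
    rw [mul_pow, ← hmz]
    show 4 * (l : ℤ) * V.leadingCoeff = _
    ring
  obtain ⟨R, hR⟩ := t_RUNGE (1 + 4 * Polynomial.C (l : ℤ) * (V - 1)) (V.natDegree / 2) (2 * (m : ℤ))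
    (by omega) (by rw [hDd]; omega) hDl (by
      intro M'
      obtain ⟨F, iF, fF, hp, v, k, hv, hdes⟩ := hcon (M' + (A + 2))
      have hq := ringChar_le_card F
      have hA' := hA (Nat.card F) (by omega)
      have hv2 : 2 ≤ v := big_v V hV hpos (by omega) hA' hv
      obtain ⟨hfl, hk⟩ := hdes.count (by omega)
      refine ⟨Nat.card F, by omega, 2 * (k : ℤ) - 1, ?_⟩
      simp only [eval_add, eval_one, eval_mul, eval_sub, eval_C, eval_ofNat]
      rw [← hv]
      linear_combination (-4 : ℤ) * hk)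
  exact hdvd (t_POLY V (l : ℤ) R (by omega) hV hR)

/-- polynomials of powers are exponential sums -/
theorem exp_poly (p : ℕ) (hp : p ≠ 0) (V : ℤ[X]) : IsExpSum (fun m => V.eval ((p : ℤ) ^ m)) := by
  have h1 : IsExpSum (fun m => (p : ℤ) ^ m) := by
    refine ⟨{(p : ℂ)}, fun _ => 1, ?_, ?_, ?_⟩
    · rw [Finset.mem_singleton]
      exact fun h => hp (by exact_mod_cast h.symm)
    · intro β hβ
      rw [Finset.mem_singleton] at hβ
      rw [hβ]
      exact isAlgebraic_natCast p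
    · intro m _
      simp
  induction V using Polynomial.induction_on' with
  | add P Q hP hQ =>
    have := DW.t_RING.2.1 _ _ hP hQ
    simpa using this
  | monomial n c =>
    have h2 : ∀ n : ℕ, IsExpSum (fun m => ((p : ℤ) ^ m) ^ n) := by
      intro n
      induction n with
      | zero => simpa using DW.t_RING.1 1
      | succ n ih =>
        have := DW.t_RING.2.2 _ _ ih h1
        simpa [pow_succ] using this
    have := DW.t_RING.2.2 _ _ (DW.t_RING.1 c) (h2 n)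
    simpa using this

theorem caseB {a b : ℕ} (X : QF ℤ a) (B : QF ℤ b) (I : QF ℤ (a + b)) (V : ℤ[X])
    (hV : 1 ≤ V.natDegree) (hpos : 0 < V.leadingCoeff) (l : ℕ) (hl : 1 ≤ l)
    (hdvd : ¬ (l : ℤ) ∣ V.leadingCoeff) (p : ℕ) (hp : p.Prime) :
    ∃ M : ℕ, ∀ (F : Type) [Field F] [Finite F], ringChar F = p → M ≤ Nat.card F → ∀ v k : ℕ,
      (v : ℤ) = V.eval (Nat.card F : ℤ) → ¬ Fam X B I F v k l := by
  by_contra hcon
  push Not at hcon
  have hpf : Fact p.Prime := ⟨hp⟩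
  obtain ⟨A, hA⟩ := poly_close V hV
  obtain ⟨W, hW1, hW2⟩ := dwork (ZMod p) (a + b) (qmap (Int.castRingHom (ZMod p)) (QF.flags X B I))
  apply hdvd
  have hp1 : (1 : ℝ) < p := by exact_mod_cast hp.one_lt
  refine arith2 DW.t_RING t_ASYM t_SPLIT t_DIR t_GAUSS t_VAL (fun m => V.eval ((p : ℤ) ^ m)) W (l : ℤ)
    V.leadingCoeff ((p : ℝ) ^ V.natDegree) 1 1 (exp_poly p hp.ne_zero V) hW1 (by omega) hpos.ne'
    (one_lt_pow₀ hp1 (by omega)) (le_refl _) (le_refl _) ?_ ?_
  · -- the limit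
    have h1 : Tendsto (fun t : ℕ => p ^ (1 + 1 * t)) atTop atTop := by
      refine (tendsto_pow_atTop_atTop_of_one_lt hp.one_lt).comp ?_
      exact tendsto_atTop_mono (fun n => by show n ≤ _; omega) tendsto_id
    have h2 : Tendsto (fun t : ℕ => ((p : ℝ) ^ (1 + 1 * t))) atTop atTop := by
      have := tendsto_natCast_atTop_atTop (R := ℝ) |>.comp h1
      refine this.congr fun t => ?_
      simp
    have h3 : Tendsto (fun t : ℕ => (A : ℝ) / ((p : ℝ) ^ (1 + 1 * t))) atTop (𝓝 0) :=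
      Tendsto.div_atTop tendsto_const_nhds h2
    rw [tendsto_iff_dist_tendsto_zero]
    refine squeeze_zero (fun t => dist_nonneg) (fun t => ?_) h3
    have hq0 : (0 : ℝ) < (p : ℝ) ^ (1 + 1 * t) := by positivity
    have hA' := hA (p ^ (1 + 1 * t)) (Nat.one_le_pow _ _ hp.pos)
    have h4 : |((V.eval ((p : ℤ) ^ (1 + 1 * t)) : ℤ) : ℝ) - V.leadingCoeff * ((p : ℝ) ^ (1 + 1 * t)) ^ V.natDegree|
        ≤ A * ((p : ℝ) ^ (1 + 1 * t)) ^ (V.natDegree - 1) := by
      push_cast at hA'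
      exact_mod_cast hA'
    rw [Real.dist_eq]
    have h5 : ((p : ℝ) ^ V.natDegree) ^ (1 + 1 * t) = ((p : ℝ) ^ (1 + 1 * t)) ^ V.natDegree := by
      rw [← pow_mul, ← pow_mul, mul_comm]
    have h6 : ((p : ℝ) ^ (1 + 1 * t)) ^ V.natDegree =
        ((p : ℝ) ^ (1 + 1 * t)) ^ (V.natDegree - 1) * (p : ℝ) ^ (1 + 1 * t) := by
      rw [← pow_succ]
      congr 1
      omega
    rw [h5, le_div_iff₀ hq0]
    have hP : (0 : ℝ) < ((p : ℝ) ^ (1 + 1 * t)) ^ V.natDegree := by positivity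
    have e : ((V.eval ((p : ℤ) ^ (1 + 1 * t)) : ℤ) : ℝ) / ((p : ℝ) ^ (1 + 1 * t)) ^ V.natDegree -
        V.leadingCoeff = (((V.eval ((p : ℤ) ^ (1 + 1 * t)) : ℤ) : ℝ) -
          V.leadingCoeff * ((p : ℝ) ^ (1 + 1 * t)) ^ V.natDegree) /
          ((p : ℝ) ^ (1 + 1 * t)) ^ V.natDegree := by
      field_simp
    rw [e, abs_div, abs_of_pos hP, div_mul_eq_mul_div, div_le_iff₀ hP]
    calc _ ≤ (A * ((p : ℝ) ^ (1 + 1 * t)) ^ (V.natDegree - 1)) * (p : ℝ) ^ (1 + 1 * t) :=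
          mul_le_mul_of_nonneg_right h4 hq0.le
      _ = A * ((p : ℝ) ^ (1 + 1 * t)) ^ V.natDegree := by rw [h6]; ring
  · intro N
    obtain ⟨F, iF, fF, hc, hcard, v, k, hv, hdes⟩ := hcon (p ^ (N + 2) + (A + 2))
    have hchar : CharP F p := by rw [← hc]; exact ringChar.charP F
    let _ : Algebra (ZMod p) F := ZMod.algebra F p
    have hq : Nat.card F = p ^ Module.finrank (ZMod p) F := by
      rw [Module.natCard_eq_pow_finrank (K := ZMod p) (V := F), Nat.card_zmod]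
    have hN : N + 1 ≤ Module.finrank (ZMod p) F := by
      by_contra hlt
      have h1 : Nat.card F ≤ p ^ (N + 2) := by
        rw [hq]
        exact Nat.pow_le_pow_right hp.pos (by omega)
      omega
    have hA' := hA (Nat.card F) (by omega)
    have hv2 : 2 ≤ v := big_v V hV hpos (by omega) hA' hv
    obtain ⟨hfl, hk⟩ := hdes.count (by omega)
    refine ⟨Module.finrank (ZMod p) F - 1, by omega, (k : ℤ), ?_⟩
    have e1 : 1 + 1 * (Module.finrank (ZMod p) F - 1) = Module.finrank (ZMod p) F := by omega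
    have e2 : V.eval ((p : ℤ) ^ (Module.finrank (ZMod p) F)) = v := by
      rw [hv, hq]
      push_cast
      rfl
    have e3 : (Nat.card {z : Fin (a + b) → F // (QF.flags X B I).Holds z} : ℤ) =
        W (Module.finrank (ZMod p) F) := by
      rw [← hW2 F _ (by omega) rfl]
      congr 1
      refine Nat.card_congr (Equiv.subtypeEquivRight fun x => ?_)
      rw [holds_qmap]
      exact RingHom.ext_int _ _
    simp only [e1, e2]
    refine ⟨hk, ?_⟩
    rw [← e3, hfl]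
    push_cast
    ring

/-- the theorem for one `l` -/
theorem poly_one {a b : ℕ} (X : QF ℤ a) (B : QF ℤ b) (I : QF ℤ (a + b)) (V : ℤ[X])
    (hV : 1 ≤ V.natDegree) (l : ℕ) (hl : 1 ≤ l) (hdvd : ¬ (l : ℤ) ∣ V.leadingCoeff) :
    ∃ M : ℕ, ∀ (F : Type) [Field F] [Finite F], M ≤ Nat.card F → ∀ v k : ℕ,
      (v : ℤ) = V.eval (Nat.card F : ℤ) → ¬ Fam X B I F v k l := by
  rcases lt_trichotomy V.leadingCoeff 0 with hneg | h0 | hpos
  · -- `V` is negative
    obtain ⟨A, hA⟩ := poly_close V hV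
    refine ⟨A + 2, fun F _ _ hF v k hv _ => ?_⟩
    have h1 := (abs_le.1 (hA (Nat.card F) (by omega))).2
    rw [← hv] at h1
    have h3 : (Nat.card F : ℤ) ^ V.natDegree = (Nat.card F : ℤ) ^ (V.natDegree - 1) * Nat.card F := by
      rw [← pow_succ]
      congr 1
      omega
    have h4 : (1 : ℤ) ≤ (Nat.card F : ℤ) ^ (V.natDegree - 1) := one_le_pow₀ (by omega)
    have h5 : V.leadingCoeff * (Nat.card F : ℤ) ^ V.natDegree ≤ - (Nat.card F : ℤ) ^ V.natDegree := by
      have : (0 : ℤ) ≤ (Nat.card F : ℤ) ^ V.natDegree := by positivity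
      nlinarith
    have h6 : ((A : ℤ) + 2) * (Nat.card F : ℤ) ^ (V.natDegree - 1) ≤ (Nat.card F : ℤ) ^ V.natDegree := by
      rw [h3, mul_comm]
      exact mul_le_mul_of_nonneg_left (by exact_mod_cast hF) (by positivity)
    have h7 : (0 : ℤ) ≤ v := Int.natCast_nonneg v
    nlinarith
  · exact absurd (h0 ▸ dvd_zero _) hdvd
  · obtain ⟨p₀, hp₀⟩ := caseA X B I V hV hpos l hl hdvd
    have key : ∀ p : ℕ, ∃ M : ℕ, p.Prime → ∀ (F : Type) [Field F] [Finite F], ringChar F = p →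
        M ≤ Nat.card F → ∀ v k : ℕ, (v : ℤ) = V.eval (Nat.card F : ℤ) → ¬ Fam X B I F v k l := by
      intro p
      by_cases hp : p.Prime
      · obtain ⟨M, hM⟩ := caseB X B I V hV hpos l hl hdvd p hp
        exact ⟨M, fun _ => hM⟩
      · exact ⟨0, fun h => absurd h hp⟩
    choose M hM using key
    refine ⟨(Finset.range (p₀ + 1)).sup M, ?_⟩
    intro F _ _ hF v k hv
    have hprime : (ringChar F).Prime := by
      have : CharP F (ringChar F) := ringChar.charP F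
      exact CharP.char_is_prime F (ringChar F)
    by_cases hc : p₀ ≤ ringChar F
    · exact hp₀ F hc v k hv
    · refine hM (ringChar F) hprime F rfl (le_trans ?_ hF) v k hv
      exact Finset.le_sup (Finset.mem_range.2 (by omega))

theorem poly_all {a b : ℕ} (X : QF ℤ a) (B : QF ℤ b) (I : QF ℤ (a + b)) (V : ℤ[X])
    (hV : 1 ≤ V.natDegree) (L : ℕ) :
    ∃ M : ℕ, ∀ (F : Type) [Field F] [Finite F], M ≤ Nat.card F → ∀ v k l : ℕ, 1 ≤ l → l ≤ L →
      (v : ℤ) = V.eval (Nat.card F : ℤ) → Fam X B I F v k l → (l : ℤ) ∣ V.leadingCoeff := by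
  have key : ∀ l : ℕ, ∃ M : ℕ, 1 ≤ l → ¬ (l : ℤ) ∣ V.leadingCoeff →
      ∀ (F : Type) [Field F] [Finite F], M ≤ Nat.card F → ∀ v k : ℕ,
        (v : ℤ) = V.eval (Nat.card F : ℤ) → ¬ Fam X B I F v k l := by
    intro l
    by_cases h : 1 ≤ l ∧ ¬ (l : ℤ) ∣ V.leadingCoeff
    · obtain ⟨M, hM⟩ := poly_one X B I V hV l h.1 h.2
      exact ⟨M, fun _ _ => hM⟩
    · exact ⟨0, fun h1 h2 => absurd ⟨h1, h2⟩ h⟩
  choose M hM using key
  refine ⟨(Finset.range (L + 1)).sup M, ?_⟩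
  intro F _ _ hF v k l hl hlL hv hdes
  by_contra hdvd
  refine hM l hl hdvd F (le_trans ?_ hF) v k hv hdes
  exact Finset.le_sup (Finset.mem_range.2 (by omega))

end Pool.Agent.T2h48.LZ
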