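import Pool.Agent.T2h48.DW.Defs

/-!
# Project LZ: algebraic families of symmetric designs over all finite fields (Lang–Weil, Runge)

Statements of the tasks (LANDAU is in `Stm1.lean`).
-/

set_option autoImplicit false

namespace Pool.Agent.T2h48.LZ

open Pool.Agent.T2h48.DW
open Filter Topology NumberField

/-- The function `ν` on finite fields is of the form `h q ^ d + O(q ^ (d - 1/2))`, with `h` and `d` bounded,
and is zero if `h = 0`, for all finite fields of characteristic not dividing some `N ≠ 0`. -/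
def Asy (ν : (k : Type) → [Field k] → [Finite k] → ℕ) : Prop :=
  ∃ (C N : ℕ), N ≠ 0 ∧ ∀ (k : Type) [Field k] [Finite k], ((N : ℕ) : k) ≠ 0 →
    ∃ h d : ℕ, h ≤ C ∧ d ≤ C ∧ (h = 0 → ν k = 0) ∧
      |(ν k : ℝ) - h * (Nat.card k : ℝ) ^ d| * √(Nat.card k : ℝ) ≤ C * (Nat.card k : ℝ) ^ d

/-- **ADD**: sums of two such functions. -/
def S_ADD : Prop :=
  ∀ (ν μ : (k : Type) → [Field k] → [Finite k] → ℕ), Asy ν → Asy μ → Asy (fun k _ _ => ν k + μ k)

/-- **RING**: the points of a scheme of finite type over `ℤ` (Noetherian induction on `A`, from LANDAU and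
ADD, for all `t` at once. If `a b = 0` with `a, b ≠ 0` then
`{φ t ≠ 0} = {φ a = 0, φ t ≠ 0} ⊔ {φ b = 0, φ (a t) ≠ 0}`; if `A` is a domain of positive characteristic take
`N = p`; if `A` is a domain of characteristic zero and `t ≠ 0`, choose `s` by `Landau` and `s'` such that
`𝓞 L → A[1/s']` (embedding `L → FractionRing A`), and use
`{φ t ≠ 0} = {φ (t s s') ≠ 0} ⊔ {φ (s s') = 0, φ t ≠ 0}`; if `#(𝓞 L →+* k) = 0` then the first set is
empty; `#(𝓞 L →+* k) ≤ [L : ℚ]` is `Pool.Agent.W385.CP.hom_int`.) -/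
def S_RING : Prop :=
  ∀ (A : Type) [CommRing A] [Algebra.FiniteType ℤ A] (t : A),
    Asy (fun k _ _ => Nat.card {φ : A →+* k // φ t ≠ 0})

/-- **FORM**: the points of a constructible set over `ℤ` (from RING and ADD: split `k ^ n` into the cells on
which the polynomials of the formula in a set `S` vanish and the others do not; the points of a cell are the
homomorphisms `φ : ℤ[x] / (S) → k` with `φ (∏ others) ≠ 0`). -/
def S_FORM : Prop :=
  ∀ (n : ℕ) (φ : QF ℤ n), Asy (fun k _ _ => Nat.card {x : Fin n → k // φ.Holds x})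

/-- **DROP**: a nonzero function on an affine variety vanishes at few points. (`A ⊗ ℚ` is finite over a
polynomial ring `ℚ[x_1..x_d]` by Noether normalisation (`exists_integral_inj_algHom_of_fg` or so), `d` the
transcendence degree; spreading out, `A[1/c]` is integral over `ℤ[1/c][x_1..x_d]` for an integer `c ≠ 0`,
so every point of `k ^ d` lifts to at most `D` homomorphisms `A → k`; `s` divides a nonzero
`g ∈ ℤ[1/c][x_1..x_d]`, which has at most `deg g * q ^ (d-1)` zeros, none if `d = 0` and the characteristic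
does not divide `g`.) -/
def S_DROP : Prop :=
  ∀ (A : Type) [CommRing A] [IsDomain A] [CharZero A] [Algebra.FiniteType ℤ A] (d : ℕ),
    Algebra.trdeg ℚ (FractionRing A) = d → ∀ s : A, s ≠ 0 → ∃ C N : ℕ, N ≠ 0 ∧
      ∀ (k : Type) [Field k] [Finite k], ((N : ℕ) : k) ≠ 0 →
        Nat.card {φ : A →+* k // φ s = 0} * Nat.card k ≤ C * Nat.card k ^ d

/-- **IRR**: the points of a geometrically irreducible affine variety over `ℚ` (a domain `A` of finite type
over `ℤ`, of characteristic zero, such that `ℚ` is algebraically closed in its field of fractions). From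
LANDAU (`L = ℚ`, and `#(𝓞 ℚ →+* k) = 1`) and DROP. -/
def S_IRR : Prop :=
  ∀ (A : Type) [CommRing A] [IsDomain A] [CharZero A] [Algebra.FiniteType ℤ A],
    (∀ x : FractionRing A, IsAlgebraic ℚ x → x ∈ Set.range (algebraMap ℚ (FractionRing A))) →
    ∃ (d : ℕ), Algebra.trdeg ℚ (FractionRing A) = d ∧ ∃ (C : ℝ) (N : ℕ), 0 ≤ C ∧ N ≠ 0 ∧
      ∀ (k : Type) [Field k] [Finite k], ((N : ℕ) : k) ≠ 0 →
        |(Nat.card (A →+* k) : ℝ) - (Nat.card k : ℝ) ^ d| * √(Nat.card k : ℝ) ≤
          C * (Nat.card k : ℝ) ^ d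

/-- **NUM**: limits. Along a sequence of designs with `v ~ h q ^ d` and `v k ~ h' q ^ d'`. -/
def S_NUM : Prop :=
  ∀ (q v k w : ℕ → ℕ) (l h d h' d' : ℕ), 1 ≤ l → 1 ≤ h → 1 ≤ d → 1 ≤ h' →
    Tendsto q atTop atTop → Tendsto (fun n => (v n : ℝ) / (q n : ℝ) ^ d) atTop (𝓝 h) →
    Tendsto (fun n => (w n : ℝ) / (q n : ℝ) ^ d') atTop (𝓝 h') →
    (∀ n, w n = v n * k n ∧ ((k n : ℤ) * (k n - 1) = l * (v n - 1))) →
    3 * d = 2 * d' ∧ h' ^ 2 = l * h ^ 3

/-- **RUNGE**: if `D ∈ ℤ[T]` has degree `2 e`, `e ≥ 1`, with leading coefficient a square, and takes square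
values at infinitely many natural numbers, then it is the square of a polynomial over `ℚ`.
(Let `R ∈ ℚ[T]` with `deg (D - R²) < e`; if `D(q) = s²` then `|s| - |R(q)|` tends to `0`.) -/
def S_RUNGE : Prop :=
  ∀ (D : Polynomial ℤ) (e : ℕ) (c : ℤ), 1 ≤ e → D.natDegree = 2 * e → D.leadingCoeff = c ^ 2 →
    (∀ M : ℕ, ∃ q : ℕ, M ≤ q ∧ ∃ s : ℤ, D.eval (q : ℤ) = s ^ 2) →
    ∃ R : Polynomial ℚ, R ^ 2 = D.map (Int.castRingHom ℚ)

/-- **POLY**: if `1 + 4 l (V - 1)` is a square in `ℚ[T]`, then `l` divides the leading coefficient of `V`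
(`K = (1 + R) / 2` is integral over `ℤ[T]`, so `K ∈ ℤ[T]`; modulo each prime power dividing `l` exactly,
`K (K - 1) = 0` in a ring of polynomials, so `K ≡ 0` or `K ≡ 1`; compare leading coefficients). -/
def S_POLY : Prop :=
  ∀ (V : Polynomial ℤ) (l : ℤ) (R : Polynomial ℚ), l ≠ 0 → 1 ≤ V.natDegree →
    R ^ 2 = (1 + 4 * Polynomial.C l * (V - 1)).map (Int.castRingHom ℚ) → l ∣ V.leadingCoeff

end Pool.Agent.T2h48.LZ
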