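import Pool.Agent.R410.LW.Main
import Pool.Agent.T2h48.LZ.Stm

/-!
# Project LZ: statement of LANDAU

`R410.LW.Landau A d L` (library) says: for all nonzero multiples `t` of some
`s ≠ 0`, `#{φ : A →+* k // φ t ≠ 0} = #(𝓞 L →+* k) q ^ d + O(q ^ (d - 1/2))`, for the finite fields `k` of
characteristic not dividing some `N`.
-/

set_option autoImplicit false

namespace Pool.Agent.T2h48.LZ

open Pool.Agent.R410.LW NumberField

/-- **LANDAU**: the library theorem `R410.LW.landau` with the information that `L` embeds into the field of
fractions. (Copy `R410/LW/Main.lean`, adding `Nonempty (L →+* M)` to the conclusion: in the step `L → F₁ → M`,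
for `d = 0` `L = M`; then take `M = FractionRing A`.) -/
def S_LANDAU : Prop :=
  ∀ (A : Type) [CommRing A] [IsDomain A] [CharZero A] [Algebra.FiniteType ℤ A],
    ∃ (L : Type) (_ : Field L) (_ : NumberField L) (d : ℕ),
      Algebra.trdeg ℚ (FractionRing A) = d ∧ Nonempty (L →+* FractionRing A) ∧ Landau A d L

end Pool.Agent.T2h48.LZ
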