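import Pool.Agent.T2h48.LZ.Stm

/-!
# Project LZ: statement of GEOM
-/

set_option autoImplicit false

namespace Pool.Agent.T2h48.LZ

open MvPolynomial

/-- **GEOM**: if the prime ideal `P` of `ℤ[x]` generates a prime ideal of `ℂ[x]`, then `ℚ` is algebraically
closed in the field of fractions of `ℤ[x] / P`. (Let `x = u / w` with `U, W ∈ ℤ[x]` over `u, w`, and let
`∏ (T - α_i)` be the minimal polynomial of `x` over `ℚ`, factored over `ℂ`. Then `∏ (U - α_i W) ∈ P ℂ[x]`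
(multiply `μ(u/w) = 0` by `w ^ m` and an integer), so `U - α W ∈ P ℂ[x]` for some `α ∈ ℂ`. Let
`ρ : ℂ → ℚ` be `ℚ`-linear with `ρ 1 = 1`; applying `ρ` to the coefficients of
`U - α W = ∑ g_i p_i`, `p_i ∈ P`, we get `U - ρ(α) W ∈ P ℚ[x]`, so `n U - m W ∈ P` for integers `n ≠ 0`, `m`
(`P` contains no nonzero integer as it generates a proper ideal over `ℂ`), so `x = m / n`.) -/
def S_GEOM : Prop :=
  ∀ (n : ℕ) (P : Ideal (MvPolynomial (Fin n) ℤ)), P.IsPrime →
    (P.map (MvPolynomial.map (Int.castRingHom ℂ))).IsPrime →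
    ∀ (M : Type) [Field M] [CharZero M] [Algebra (MvPolynomial (Fin n) ℤ ⧸ P) M]
      [IsFractionRing (MvPolynomial (Fin n) ℤ ⧸ P) M] (x : M), IsAlgebraic ℚ x →
      x ∈ Set.range (algebraMap ℚ M)

end Pool.Agent.T2h48.LZ
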