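import Pool.Agent.T2h48.LZ.Stm

set_option autoImplicit false

namespace Pool.Agent.T2h48.LZ

open Filter Topology

theorem t_NUM : S_NUM := by
  intro q v k w l h d h' d' hl hh hd hh' hq hv hw heq
  have hqR : Tendsto (fun n => (q n : ℝ)) atTop atTop := tendsto_natCast_atTop_atTop.comp hq
  have hlR : (1 : ℝ) ≤ l := by exact_mod_cast hl
  have hhR : (1 : ℝ) ≤ h := by exact_mod_cast hh
  have hh'R : (1 : ℝ) ≤ h' := by exact_mod_cast hh'
  -- `1 / q ^ m → 0`
  have hinv : ∀ m : ℕ, 1 ≤ m → Tendsto (fun n => ((q n : ℝ) ^ m)⁻¹) atTop (𝓝 0) := by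
    intro m hm
    exact tendsto_inv_atTop_zero.comp ((tendsto_pow_atTop (by omega)).comp hqR)
  have hqpos : ∀ᶠ n in atTop, 0 < (q n : ℝ) := hqR.eventually_gt_atTop 0
  -- `v → ∞`
  have hv1 : Tendsto (fun n => (v n : ℝ)) atTop atTop := by
    have h1 : Tendsto (fun n => (v n : ℝ) / (q n : ℝ) ^ d * (q n : ℝ) ^ d) atTop atTop :=
      Filter.Tendsto.pos_mul_atTop (by linarith) hv ((tendsto_pow_atTop (by omega)).comp hqR)
    refine h1.congr' ?_
    filter_upwards [hqpos] with n hn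
    field_simp
  have hvinv : Tendsto (fun n => ((v n : ℝ))⁻¹) atTop (𝓝 0) := tendsto_inv_atTop_zero.comp hv1
  have hvpos : ∀ᶠ n in atTop, 0 < (v n : ℝ) := hv1.eventually_gt_atTop 0
  -- real form of the equations
  have hE : ∀ n, (k n : ℝ) * (k n - 1) = l * (v n - 1) := by
    intro n
    have := (heq n).2
    exact_mod_cast this
  have hW : ∀ n, (w n : ℝ) = v n * k n := by
    intro n
    have := (heq n).1
    exact_mod_cast this
  -- `k / v → 0`
  have hkv2 : Tendsto (fun n => ((k n : ℝ) / v n) ^ 2) atTop (𝓝 0) := by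
    have hup : Tendsto (fun n => 2 * (l : ℝ) * ((v n : ℝ))⁻¹ + ((v n : ℝ))⁻¹ ^ 2) atTop (𝓝 0) := by
      have := (hvinv.const_mul (2 * (l : ℝ))).add (hvinv.pow 2)
      simpa using this
    refine tendsto_of_tendsto_of_tendsto_of_le_of_le' tendsto_const_nhds hup
      (Eventually.of_forall fun n => by positivity) ?_
    filter_upwards [hvpos] with n hn
    have h1 : (k n : ℝ) ^ 2 ≤ 2 * l * v n + 1 := by
      nlinarith [sq_nonneg ((k n : ℝ) - 1), hE n]
    have : ((k n : ℝ) / v n) ^ 2 = (k n : ℝ) ^ 2 * ((v n : ℝ))⁻¹ ^ 2 := by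
      field_simp
    rw [this]
    have h2 : 2 * (l : ℝ) * ((v n : ℝ))⁻¹ + ((v n : ℝ))⁻¹ ^ 2 = (2 * l * v n + 1) * ((v n : ℝ))⁻¹ ^ 2 := by
      field_simp
    rw [h2]
    exact mul_le_mul_of_nonneg_right h1 (by positivity)
  have hkv : Tendsto (fun n => (k n : ℝ) / v n) atTop (𝓝 0) := by
    have := hkv2.sqrt
    rw [Real.sqrt_zero] at this
    refine this.congr fun n => ?_
    exact Real.sqrt_sq (by positivity)
  have hm : Tendsto (fun n => (l : ℝ) - l * ((v n : ℝ))⁻¹ + (k n : ℝ) / v n) atTop (𝓝 l) := by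
    have := ((tendsto_const_nhds (x := (l : ℝ))).sub (hvinv.const_mul (l : ℝ))).add hkv
    simpa using this
  have hA : Tendsto (fun n => (w n : ℝ) ^ 2 / (q n : ℝ) ^ (3 * d)) atTop (𝓝 ((h : ℝ) ^ 3 * l)) := by
    refine ((hv.pow 3).mul hm).congr' ?_
    filter_upwards [hqpos, hvpos] with n hn hn2
    have hE' := hE n
    rw [hW n, div_pow, ← pow_mul, mul_comm d 3, div_mul_eq_mul_div]
    congr 1
    have : (v n : ℝ) ^ 3 * (l - l * ((v n : ℝ))⁻¹ + (k n : ℝ) / v n) =
        (v n : ℝ) ^ 2 * (l * (v n - 1) + k n) := by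
      field_simp
    rw [this, ← hE']
    ring
  have hB : Tendsto (fun n => (w n : ℝ) ^ 2 / (q n : ℝ) ^ (2 * d')) atTop (𝓝 ((h' : ℝ) ^ 2)) := by
    refine (hw.pow 2).congr fun n => ?_
    rw [div_pow, ← pow_mul, mul_comm d' 2]
  rcases lt_trichotomy (3 * d) (2 * d') with hlt | heq' | hgt
  · exfalso
    have h0 : Tendsto (fun n => (w n : ℝ) ^ 2 / (q n : ℝ) ^ (2 * d')) atTop (𝓝 0) := by
      have := hA.mul (hinv (2 * d' - 3 * d) (by omega))
      rw [mul_zero] at this
      refine this.congr' ?_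
      filter_upwards [hqpos] with n hn
      have e : (q n : ℝ) ^ (2 * d') = (q n : ℝ) ^ (3 * d) * (q n : ℝ) ^ (2 * d' - 3 * d) := by
        rw [← pow_add]; congr 1; omega
      rw [e]; field_simp
    have := tendsto_nhds_unique h0 hB
    nlinarith
  · refine ⟨heq', ?_⟩
    rw [heq'] at hA
    have := tendsto_nhds_unique hB hA
    have h3 : (h' : ℝ) ^ 2 = l * h ^ 3 := by rw [this]; ring
    exact_mod_cast h3
  · exfalso
    have h0 : Tendsto (fun n => (w n : ℝ) ^ 2 / (q n : ℝ) ^ (3 * d)) atTop (𝓝 0) := by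
      have := hB.mul (hinv (3 * d - 2 * d') (by omega))
      rw [mul_zero] at this
      refine this.congr' ?_
      filter_upwards [hqpos] with n hn
      have e : (q n : ℝ) ^ (3 * d) = (q n : ℝ) ^ (2 * d') * (q n : ℝ) ^ (3 * d - 2 * d') := by
        rw [← pow_add]; congr 1; omega
      rw [e]; field_simp
    have := tendsto_nhds_unique h0 hA
    have h1 : (0 : ℝ) < (h : ℝ) ^ 3 * l := by positivity
    linarith

end Pool.Agent.T2h48.LZ
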